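import Pool.Agent.Run7.h621.NG.GenType
import Pool.Agent.Run7.h621.FV.GenType
import Pool.Agent.Run7.h621.FV.Dim

/-!
Nearly generic members of linear systems.
-/

set_option autoImplicit false

open MvPolynomial Pool.Agent.W602.GT Pool.Agent.TH145.MG
open Pool.Agent.TH145.GD (St)
open Pool.Agent.TH145.GH (eval_smul_hom)

namespace Pool.Agent.Run7.h621.NG

/-- Elements that generate a field of large transcendence degree: all but a few of them are
algebraically independent. -/
theorem exists_indep {k K β : Type} [Field k] [Field K] [Algebra k K] [Finite β] (c : β → K)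
    {s : ℕ} (h : (Nat.card β : Cardinal) ≤
      Algebra.trdeg k (IntermediateField.adjoin k (Set.range c)) + s) :
    ∃ B : Set β, AlgebraicIndependent k (fun b : B => c b) ∧ Nat.card {b : β // b ∉ B} ≤ s := by
  classical
  have := Fintype.ofFinite β
  obtain ⟨E, hE⟩ : ∃ E, E = IntermediateField.adjoin k (Set.range c) := ⟨_, rfl⟩
  rw [← hE] at h
  have hcE : ∀ b, c b ∈ E := fun b => by
    rw [hE]
    exact IntermediateField.subset_adjoin _ _ ⟨b, rfl⟩
  obtain ⟨c', hc'⟩ : ∃ c' : β → E, ∀ b, c' b = ⟨c b, hcE b⟩ := ⟨_, fun _ => rfl⟩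
  have htop : IntermediateField.adjoin k (Set.range c') = ⊤ := by
    apply IntermediateField.lift_injective E
    rw [IntermediateField.lift_adjoin, IntermediateField.lift_top, ← Set.range_comp]
    have h1 : (Subtype.val ∘ c' : β → K) = c := by
      funext b
      rw [Function.comp_apply, hc']
    rw [h1, hE]
  have halg : Algebra.IsAlgebraic (IntermediateField.adjoin k (Set.range c')) E := by
    rw [htop]
    exact ⟨fun z => isAlgebraic_algebraMap (⟨z, trivial⟩ : (⊤ : IntermediateField k E))⟩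
  have hle : Algebra.trdeg k E ≤ Fintype.card β :=
    Pool.Agent.Run7.h621.FV.trdeg_le_card c E hE.le
  obtain ⟨w, hw⟩ := Cardinal.lt_aleph0.1 (hle.trans_lt (Cardinal.natCast_lt_aleph0))
  obtain ⟨l, hl⟩ := Pool.Agent.Run7.h621.FV.exists_tb hw halg
  have hli : Function.Injective l := fun i j hij => by
    apply hl.1.injective
    simp only [hij]
  have hB : AlgebraicIndependent k fun i => c (l i) := by
    have h1 := hl.1.map' (f := E.val) (RingHom.injective _)
    have h2 : (⇑E.val ∘ fun i => c' (l i)) = fun i => c (l i) := by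
      funext i
      rw [Function.comp_apply, hc']
      rfl
    rwa [h2] at h1
  refine ⟨Set.range l, ?_, ?_⟩
  · have h1 := hB.comp (Equiv.ofInjective l hli).symm (Equiv.injective _)
    have h2 : ((fun i => c (l i)) ∘ (Equiv.ofInjective l hli).symm) = fun b : Set.range l => c b := by
      funext b
      rw [Function.comp_apply, Equiv.apply_ofInjective_symm hli]
    rwa [h2] at h1
  · rw [hw] at h
    have h1 : Nat.card β ≤ w + s := by exact_mod_cast h
    have h2 : Nat.card (Set.range l) = w := by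
      rw [Nat.card_congr (Equiv.ofInjective l hli).symm, Nat.card_eq_fintype_card, Fintype.card_fin]
    have h3 : Nat.card {b : β // b ∉ Set.range l} + Nat.card (Set.range l) = Nat.card β := by
      rw [Nat.card_eq_fintype_card, Nat.card_eq_fintype_card, Nat.card_eq_fintype_card,
        Fintype.card_subtype_compl]
      have h4 : Fintype.card (Set.range l) ≤ Fintype.card β := Fintype.card_subtype_le _
      exact Nat.sub_add_cancel h4
    omega

variable {k0 K A : Type} [Field k0] [Field K] [Algebra k0 K] [IsAlgClosed K] [CharZero K] {n : ℕ}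
  {J : A → Type} [∀ a, Fintype (J a)] {P : ∀ a, J a → MvPolynomial (Fin (n + 1)) k0}
  {j0 : ∀ a, J a}

/-- Subvarieties are of general type. -/
theorem general_sub [Fintype A] [DecidableEq A] {dg : A → ℕ}
    (hP : ∀ a j, (P a j).IsHomogeneous (dg a))
    {V : Set (MvPolynomial (Fin (n + 1)) k0)} (hVh : ∀ f ∈ V, ∃ e, f.IsHomogeneous e) {m s w : ℕ}
    (hV : DimLE k0 V m) {c0 : Fin (n + 1)}
    (hSt : ∀ a, ∀ I ∈ St c0 (dg a), ∃ j, P a j = monomial I 1) (hw : 0 < w)
    (hnum : 2 * m + s + 2 ≤ ∑ a, (dg a + 1) + w) (t : ∀ a, J a → K) (h0 : ∀ a, t a (j0 a) ≠ 0)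
    {B : Set (Bt j0)} (hB : Nat.card {b : Bt j0 // b ∉ B} ≤ s)
    (hind : AlgebraicIndependent k0 fun p : B => t p.1.1 p.1.2.1 / t p.1.1 (j0 p.1.1))
    {F : A → MvPolynomial (Fin (n + 1)) K}
    (hF : ∀ a, F a = ∑ j, C (t a j) * map (algebraMap k0 K) (P a j))
    {L : Type} [Field L] [Algebra K L] (htr : Algebra.trdeg K L = w) (x : Fin (n + 1) → L)
    (hx : x c0 ≠ 0) (hgen : Algebra.IsAlgebraic (coords K x) L)
    (hxV : ∀ f ∈ V, aeval x (map (algebraMap k0 K) f) = 0) (hxF : ∀ a, aeval x (F a) = 0) :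
    GeneralType K L w := by
  obtain ⟨x', hx'⟩ : ∃ x' : Fin (n + 1) → L, x' = fun j => (x c0)⁻¹ * x j := ⟨_, rfl⟩
  have hcx : (x c0)⁻¹ ≠ 0 := inv_ne_zero hx
  have hx1 : x' c0 = 1 := by
    rw [hx']
    exact inv_mul_cancel₀ hx
  have hxx : x' = (x c0)⁻¹ • x := by rw [hx']; rfl
  have hco : coords K x' = coords K x := by
    unfold coords
    congr 1
    ext z
    constructor
    · rintro ⟨i, j, hj, rfl⟩
      refine ⟨i, j, fun h => hj (by rw [hx']; simp [h]), ?_⟩
      rw [hx']
      field_simp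
    · rintro ⟨i, j, hj, rfl⟩
      refine ⟨i, j, ?_, ?_⟩
      · rw [hx']; exact mul_ne_zero hcx hj
      · rw [hx']
        field_simp
  obtain ⟨c, hc⟩ : ∃ c : Bt j0 → K, ∀ p, c p = t p.1 p.2.1 / t p.1 (j0 p.1) := ⟨_, fun _ => rfl⟩
  have hc' : c = fun p : Bt j0 => t p.1 p.2.1 / t p.1 (j0 p.1) := funext hc
  refine general_chart (c := c) hP hV hSt hw hnum hB (by simpa only [hc] using hind) htr hx1
    (by rw [hco]; exact hgen) (fun f hf => ?_) fun a => ?_
  · obtain ⟨e, he⟩ := hVh f hf
    rw [hxx, Pool.Agent.Run7.h621.FV.aeval_smul' (he.map _), hxV f hf, mul_zero]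
  · have h1 := hxF a
    rw [hF, form_eq t h0, ← hc', map_mul, aeval_C] at h1
    have h2 : aeval x (NF P j0 c a) = 0 := (mul_eq_zero.1 h1).resolve_left fun h =>
      h0 a ((map_eq_zero _).1 h)
    rw [hxx, eval_smul_hom ((NF_hom hP c a).map _), eval_map, ← aeval_def, h2, mul_zero]

end Pool.Agent.Run7.h621.NG
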