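import Pool.Agent.Run7.h621.NG.Rows
import Pool.Agent.Run7.h621.FV.Pick

/-!
The choice of the rows.
-/

set_option autoImplicit false

open MvPolynomial Pool.Agent.TH145.GH
open Pool.Agent.TH145.GC (dF_self dF_sub)
open Pool.Agent.TH145.GD (St sM sM_zero sM_top sM_mem mon_step mon_sM single_mem deg_St)
open Pool.Agent.Run7.h621.FV (cd coeff_cd chain ext_family sum_indep)

namespace Pool.Agent.Run7.h621.NG

variable {L : Type} [Field L] {n : ℕ} {A S X : Type}

/-- The extended derivations are dual to the coefficients. -/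
def DualE [DecidableEq A] [Fintype S] (c : Fin (n + 1)) (F : A → MvPolynomial (Fin (n + 1)) L)
    (dg : A → ℕ) (D : A → (Fin (n + 1) →₀ ℕ) → Derivation ℤ L L)
    (θ : A → (Fin (n + 1) →₀ ℕ) → S → L) (ε : A → (Fin (n + 1) →₀ ℕ) → L)
    (Q : S → A → MvPolynomial (Fin (n + 1)) L) : Prop :=
  ∀ a b, ∀ I ∈ St c (dg a), cd (D a I) (F b) =
    (if a = b then monomial I 1 - ε a I • F b else 0) + ∑ r, θ a I r • Q r b

/-- The functionals. -/
noncomputable def Ph [Fintype S] (F : A → MvPolynomial (Fin (n + 1)) L)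
    (Q : S → A → MvPolynomial (Fin (n + 1)) L) (x : Fin (n + 1) → L) :
    (Fin (n + 1) ⊕ S → L) →ₗ[L] (A → L) where
  toFun v b := dF (F b) x (fun j => v (Sum.inl j)) + ∑ r, v (Sum.inr r) * eval x (Q r b)
  map_add' v w := by
    funext b
    have h1 := dF_add (F b) x (fun j => v (Sum.inl j)) (fun j => w (Sum.inl j))
    have h2 : (fun j => (v + w) (Sum.inl j)) =
      (fun j => v (Sum.inl j)) + fun j => w (Sum.inl j) := rfl
    rw [Pi.add_apply, h2, h1]
    simp only [Pi.add_apply, add_mul, Finset.sum_add_distrib]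
    ring
  map_smul' s v := by
    funext b
    have h1 := dF_smul (F b) x (fun j => v (Sum.inl j)) s
    have h2 : (fun j => (s • v) (Sum.inl j)) = s • fun j => v (Sum.inl j) := rfl
    rw [h2, h1]
    simp only [Pi.smul_apply, smul_eq_mul, RingHom.id_apply, mul_add, Finset.mul_sum, mul_assoc]

theorem dF_der (δ : Derivation ℤ L L) (x : Fin (n + 1) → L) (P : MvPolynomial (Fin (n + 1)) L) :
    dF P x (fun j => δ (x j)) = δ (eval x P) - eval x (cd δ P) := by
  have h1 := chain (d := δ) (fun a b => map_add δ a b) (fun a b => by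
    rw [δ.leibniz, smul_eq_mul, smul_eq_mul]) (RingHom.id L) δ (fun _ => rfl) x P
  have h2 : δ (eval x P) = eval x (cd δ P) + ∑ j, eval x (pderiv j P) * δ (x j) := h1
  rw [h2, dF]
  ring

section

variable [DecidableEq A] [Fintype S] {c : Fin (n + 1)} {F : A → MvPolynomial (Fin (n + 1)) L}
  {dg : A → ℕ} {D : A → (Fin (n + 1) →₀ ℕ) → Derivation ℤ L L}
  {θ : A → (Fin (n + 1) →₀ ℕ) → S → L} {ε : A → (Fin (n + 1) →₀ ℕ) → L}
  {Q : S → A → MvPolynomial (Fin (n + 1)) L}

theorem Ph_R (hD : DualE c F dg D θ ε Q) {x : Fin (n + 1) → L} (hFx : ∀ a, eval x (F a) = 0)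
    {a : A} {I : Fin (n + 1) →₀ ℕ} (hI : I ∈ St c (dg a)) (b : A) :
    Ph F Q x (R D θ x a I) b = if a = b then - mon x I else 0 := by
  have h1 : Ph F Q x (R D θ x a I) b = dF (F b) x (fun j => D a I (x j)) +
    ∑ r, θ a I r * eval x (Q r b) := rfl
  rw [h1, dF_der, hFx, map_zero, hD a b I hI, map_add, map_sum]
  simp only [smul_eval]
  split_ifs with hab
  · rw [map_sub, smul_eval, hFx, mul_zero, sub_zero, eval_monomial', one_mul]
    ring
  · rw [map_zero]
    ring

theorem Ph_T (hD : DualE c F dg D θ ε Q) {x : Fin (n + 1) → L} (hFx : ∀ a, eval x (F a) = 0)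
    (p : A × Fin (n + 1) × ℕ) : Ph F Q x (T c dg D θ x p) = 0 := by
  rw [T]
  split_ifs with hp
  · funext b
    rw [map_sub, map_smul, map_smul, Pi.sub_apply, Pi.smul_apply, Pi.smul_apply,
      Ph_R hD hFx (sM_mem (by omega)), Ph_R hD hFx (sM_mem (by omega)), Pi.zero_apply]
    have h1 := mon_step x c p.2.1 hp
    split_ifs
    · rw [smul_eq_mul, smul_eq_mul]
      linear_combination -h1
    · rw [smul_zero, smul_zero, sub_zero]
  · exact map_zero _

omit [DecidableEq A] in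
theorem Ph_E (hF : ∀ a, (F a).IsHomogeneous (dg a)) {x : Fin (n + 1) → L}
    (hFx : ∀ a, eval x (F a) = 0) (E : X → Derivation ℤ L L) (hE : ∀ ξ b, cd (E ξ) (F b) = 0)
    (i : Unit ⊕ X) : Ph F Q x (Sum.elim (fun _ => Sum.elim x 0)
      (fun ξ => Sum.elim (fun j => E ξ (x j)) 0) i) = 0 := by
  funext b
  rcases i with _ | ξ
  · have h1 : Ph F Q x (Sum.elim x 0) b = dF (F b) x x + ∑ r, 0 * eval x (Q r b) := rfl
    rw [Sum.elim_inl, h1, dF_self (hF b), hFx, mul_zero, Pi.zero_apply]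
    simp
  · have h1 : Ph F Q x (Sum.elim (fun j => E ξ (x j)) 0) b =
      dF (F b) x (fun j => E ξ (x j)) + ∑ r, 0 * eval x (Q r b) := rfl
    rw [Sum.elim_inr, h1, dF_der, hFx, hE, map_zero, map_zero, Pi.zero_apply]
    simp

end

/-- The unit vectors. -/
theorem unit_span {κ : Type} [Fintype κ] [DecidableEq κ] (v : κ → L) :
    v ∈ Submodule.span L (Set.range fun q : κ => (Pi.single q 1 : κ → L)) := by
  rw [Submodule.mem_span_range_iff_exists_fun]
  refine ⟨v, ?_⟩
  funext p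
  rw [Finset.sum_apply, Finset.sum_eq_single p]
  · rw [Pi.smul_apply, Pi.single_eq_same, smul_eq_mul, mul_one]
  · intro q _ hq
    rw [Pi.smul_apply, Pi.single_eq_of_ne (Ne.symm hq), smul_zero]
  · intro h; exact absurd (Finset.mem_univ _) h

/-- The choice of the rows. -/
theorem pick [Fintype A] [DecidableEq A] [Fintype S] [DecidableEq S] [Fintype X]
    {c : Fin (n + 1)} {F : A → MvPolynomial (Fin (n + 1)) L}
    {dg : A → ℕ} {D : A → (Fin (n + 1) →₀ ℕ) → Derivation ℤ L L}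
    {θ : A → (Fin (n + 1) →₀ ℕ) → S → L} {ε : A → (Fin (n + 1) →₀ ℕ) → L}
    {Q : S → A → MvPolynomial (Fin (n + 1)) L} (hF : ∀ a, (F a).IsHomogeneous (dg a))
    (hD : DualE c F dg D θ ε Q) {E : X → Derivation ℤ L L} (hE : ∀ ξ b, cd (E ξ) (F b) = 0)
    {x : Fin (n + 1) → L} (hx : x c = 1) (hFx : ∀ a, eval x (F a) = 0)
    (hX : LinearIndependent L (Sum.elim (fun _ : Unit => x) (fun ξ j => E ξ (x j))))
    {N : Submodule L (Fin (n + 1) → L)} {m : ℕ} (hN : Module.finrank L N ≤ m + 1) (hN0 : x ∈ N)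
    (hN1 : ∀ a I, (fun j => D a I (x j)) ∈ N) (hN2 : ∀ ξ, (fun j => E ξ (x j)) ∈ N) :
    ∃ (τ : Type) (_ : Fintype τ) (υ1 : Type) (_ : Fintype υ1) (υ2 : Type) (_ : Fintype υ2)
      (t : τ → A × Fin (n + 1) × ℕ) (u1 : υ1 → Fin (n + 1)) (u2 : υ2 → Fin (n + 1) ⊕ S)
      (_ : Fin (n + 1) ⊕ S ≃ (Unit ⊕ (X ⊕ τ)) ⊕ (A ⊕ (υ1 ⊕ υ2))),
      Spans c dg D θ E t x ∧
      LinearIndependent L (row c dg D θ E t (fun a => Finsupp.single c (dg a))
        (Sum.elim (fun y => Pi.single (Sum.inl (u1 y)) 1) fun y => Pi.single (u2 y) 1) x) ∧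
      Fintype.card X + Fintype.card τ + Fintype.card A + Fintype.card υ2 ≤
        m + Fintype.card S := by
  classical
  -- the base
  obtain ⟨v0, hv0⟩ : ∃ v0 : Unit ⊕ X → Fin (n + 1) ⊕ S → L, v0 = Sum.elim
    (fun _ => Sum.elim x 0) (fun ξ => Sum.elim (fun j => E ξ (x j)) 0) := ⟨_, rfl⟩
  obtain ⟨inc, hinc⟩ : ∃ inc : (Fin (n + 1) → L) →ₗ[L] (Fin (n + 1) ⊕ S → L),
      ∀ v, inc v = Sum.elim v 0 :=
    ⟨{ toFun := fun v => Sum.elim v 0
       map_add' := fun v w => by
        funext q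
        rcases q with j | r
        · rfl
        · simp
       map_smul' := fun s v => by
        funext q
        rcases q with j | r
        · rfl
        · simp }, fun _ => rfl⟩
  obtain ⟨prj, hprj⟩ : ∃ prj : (Fin (n + 1) ⊕ S → L) →ₗ[L] (Fin (n + 1) → L),
      ∀ v, prj v = fun j => v (Sum.inl j) :=
    ⟨{ toFun := fun v j => v (Sum.inl j)
       map_add' := fun v w => rfl
       map_smul' := fun s v => rfl }, fun _ => rfl⟩
  have hv0i : LinearIndependent L v0 := by
    have h1 : v0 = inc ∘ (Sum.elim (fun _ : Unit => x) (fun ξ j => E ξ (x j))) := by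
      funext i
      rw [hv0, Function.comp_apply, hinc]
      rcases i with _ | ξ
      · rfl
      · rfl
    rw [h1]
    refine hX.map' inc ?_
    rw [LinearMap.ker_eq_bot']
    intro v hv
    rw [hinc] at hv
    funext j
    exact congrFun hv (Sum.inl j)
  obtain ⟨τ, i1, -, t, ht, hts⟩ := ext_family hv0i (T c dg D θ x)
  -- the base rows
  obtain ⟨eb, heb⟩ : ∃ eb : Unit ⊕ (X ⊕ τ) ≃ (Unit ⊕ X) ⊕ τ, eb = (Equiv.sumAssoc _ _ _).symm :=
    ⟨_, rfl⟩
  have hbrow : brow c dg D θ E t x = Sum.elim v0 (T c dg D θ x ∘ t) ∘ eb := by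
    funext i
    rw [hv0, heb]
    rcases i with _ | ξ | y
    · rfl
    · rfl
    · rfl
  have hbi : LinearIndependent L (brow c dg D θ E t x) := by
    rw [hbrow]
    exact ht.comp _ eb.injective
  have hbs : Set.range (brow c dg D θ E t x) = Set.range (Sum.elim v0 (T c dg D θ x ∘ t)) := by
    rw [hbrow, Set.range_comp, Equiv.range_eq_univ, Set.image_univ]
  have hsp : Spans c dg D θ E t x := fun p => by rw [hbs]; exact hts p
  -- the functionals
  have hker : ∀ i, Ph F Q x (brow c dg D θ E t x i) = 0 := by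
    rintro (_ | ξ | y)
    · exact Ph_E hF hFx E hE (Sum.inl ())
    · exact Ph_E hF hFx E hE (Sum.inr ξ)
    · exact Ph_T hD hFx _
  have hvi : LinearIndependent L (fun a : A => Ph F Q x
      (R D θ x a (Finsupp.single c (dg a)))) := by
    rw [Fintype.linearIndependent_iff]
    intro g hg a
    have h1 := congrFun hg a
    rw [Finset.sum_apply, Finset.sum_eq_single a] at h1
    · rw [Pi.smul_apply, Ph_R hD hFx (single_mem _), if_pos rfl, mon_single, hx, one_pow,
        Pi.zero_apply, smul_eq_mul, mul_neg, mul_one, neg_eq_zero] at h1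
      exact h1
    · intro b _ hb
      rw [Pi.smul_apply, Ph_R hD hFx (single_mem _), if_neg hb, smul_zero]
    · intro h; exact absurd (Finset.mem_univ _) h
  have hind := sum_indep (Ph F Q x) hbi hker hvi
  -- the first units
  obtain ⟨q, hq⟩ : ∃ q : (Fin (n + 1) ⊕ S → L) →ₗ[L] ((Fin (n + 1) → L) ⧸ N),
    q = N.mkQ ∘ₗ prj := ⟨_, rfl⟩
  have hq0 : ∀ v, (fun j => v (Sum.inl j)) ∈ N → q v = 0 := fun v hv => by
    rw [hq, LinearMap.comp_apply, hprj, Submodule.mkQ_apply, Submodule.Quotient.mk_eq_zero]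
    exact hv
  have hRN : ∀ a I, (fun j => R D θ x a I (Sum.inl j)) ∈ N := fun a I => hN1 a I
  have hqk : ∀ i, q (Sum.elim (brow c dg D θ E t x)
      (fun a => R D θ x a (Finsupp.single c (dg a))) i) = 0 := by
    rintro ((_ | ξ | y) | a)
    · exact hq0 _ hN0
    · exact hq0 _ (hN2 ξ)
    · refine hq0 _ ?_
      change (fun j => T c dg D θ x (t y) (Sum.inl j)) ∈ N
      rw [T]
      split_ifs
      · exact sub_mem (Submodule.smul_mem _ _ (hRN _ _)) (Submodule.smul_mem _ _ (hRN _ _))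
      · exact zero_mem _
    · exact hq0 _ (hRN _ _)
  obtain ⟨υ1, i3, -, u1, hu1, hu1s⟩ := ext_family
    (linearIndependent_empty_type (R := L) (v := fun z : Empty => z.elim))
    (fun j => N.mkQ (Pi.single j 1))
  have hu1' : LinearIndependent L fun y => N.mkQ (Pi.single (u1 y) 1) :=
    hu1.comp Sum.inr Sum.inr_injective
  have hr1 : Set.range (Sum.elim (fun z : Empty => z.elim)
      ((fun j => N.mkQ (Pi.single j 1)) ∘ u1)) = Set.range fun y => N.mkQ (Pi.single (u1 y) 1) := by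
    rw [Set.Sum.elim_range, Set.range_eq_empty, Set.empty_union]
    rfl
  rw [hr1] at hu1s
  have hc1 : Fintype.card υ1 + Module.finrank L N = n + 1 := by
    have h1 : Submodule.span L (Set.range fun y => N.mkQ (Pi.single (u1 y) (1 : L))) = ⊤ := by
      rw [eq_top_iff]
      rintro z -
      obtain ⟨v, rfl⟩ := N.mkQ_surjective z
      have h2 := Submodule.mem_map_of_mem (f := N.mkQ) (unit_span v)
      rw [Submodule.map_span] at h2
      refine (Submodule.span_le.2 ?_) h2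
      rintro _ ⟨_, ⟨j, rfl⟩, rfl⟩
      exact hu1s j
    have h2 := finrank_span_eq_card hu1'
    rw [h1, finrank_top] at h2
    rw [← h2, Submodule.finrank_quotient_add_finrank, Module.finrank_fin_fun]
  have hw1 : ∀ y, q (Pi.single (Sum.inl (u1 y)) 1) = N.mkQ (Pi.single (u1 y) 1) := by
    intro y
    rw [hq, LinearMap.comp_apply, hprj]
    congr 1
    funext j
    by_cases h : j = u1 y
    · rw [h, Pi.single_eq_same, Pi.single_eq_same]
    · rw [Pi.single_eq_of_ne h, Pi.single_eq_of_ne fun h' => h (Sum.inl_injective h')]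
  have hind1 := sum_indep q hind hqk (w := fun y => Pi.single (Sum.inl (u1 y)) 1) (by
    simp only [hw1]
    exact hu1')
  -- the other units
  obtain ⟨υ2, i5, -, u2, hu2, hu2s⟩ := ext_family hind1
    (fun p : Fin (n + 1) ⊕ S => (Pi.single p 1 : Fin (n + 1) ⊕ S → L))
  obtain ⟨eq, heq⟩ : ∃ eq : (Unit ⊕ (X ⊕ τ)) ⊕ (A ⊕ (υ1 ⊕ υ2)) ≃
      (((Unit ⊕ (X ⊕ τ)) ⊕ A) ⊕ υ1) ⊕ υ2,
    eq = (Equiv.sumAssoc _ _ _).symm.trans (Equiv.sumAssoc _ _ _).symm := ⟨_, rfl⟩
  obtain ⟨fam, hfam⟩ : ∃ fam : (((Unit ⊕ (X ⊕ τ)) ⊕ A) ⊕ υ1) ⊕ υ2 → Fin (n + 1) ⊕ S → L,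
    fam = Sum.elim (Sum.elim (Sum.elim (brow c dg D θ E t x)
      (fun a => R D θ x a (Finsupp.single c (dg a))))
      (fun y => Pi.single (Sum.inl (u1 y)) 1))
      ((fun p : Fin (n + 1) ⊕ S => (Pi.single p 1 : Fin (n + 1) ⊕ S → L)) ∘ u2) := ⟨_, rfl⟩
  rw [← hfam] at hu2 hu2s
  have hrow : row c dg D θ E t (fun a => Finsupp.single c (dg a))
      (Sum.elim (fun y => Pi.single (Sum.inl (u1 y)) 1) fun y => Pi.single (u2 y) 1) x =
      fam ∘ eq := by
    funext i
    rw [hfam, heq]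
    rcases i with i | a | y | y
    · rfl
    · rfl
    · rfl
    · rfl
  have hri : LinearIndependent L (row c dg D θ E t (fun a => Finsupp.single c (dg a))
      (Sum.elim (fun y => Pi.single (Sum.inl (u1 y)) 1) fun y => Pi.single (u2 y) 1) x) := by
    rw [hrow]
    exact hu2.comp _ eq.injective
  have htop : Submodule.span L (Set.range fam) = ⊤ := by
    rw [eq_top_iff]
    rintro v -
    refine (Submodule.span_le.2 ?_) (unit_span v)
    rintro _ ⟨p, rfl⟩
    exact hu2s p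
  have hcard : Fintype.card (Fin (n + 1) ⊕ S) =
      Fintype.card ((Unit ⊕ (X ⊕ τ)) ⊕ (A ⊕ (υ1 ⊕ υ2))) := by
    have h1 := finrank_span_eq_card hu2
    rw [htop, finrank_top, Module.finrank_fintype_fun_eq_card] at h1
    rw [h1]
    exact (Fintype.card_congr eq).symm
  refine ⟨τ, i1, υ1, i3, υ2, i5, t, u1, u2, Fintype.equivOfCardEq hcard, hsp, hri, ?_⟩
  simp only [Fintype.card_sum, Fintype.card_fin, Fintype.card_unit] at hcard
  omega

end Pool.Agent.Run7.h621.NG
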