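import Pool.Agent.Run7.h621.NG.Local
import Pool.Agent.Run7.h621.NG.Pick
import Pool.Agent.TH145.GE.Duals

/-!
The height inequality over function fields.
-/

set_option autoImplicit false

open MvPolynomial FF Pool.Agent.W603.LV Pool.Agent.W603.PV Pool.Agent.TH145.GH
open Pool.Agent.TH145.GC (Tan)
open Pool.Agent.TH145.GE (tan_rank)
open Pool.Agent.TH145.GD (St)
open Pool.Agent.W602.GT

namespace Pool.Agent.Run7.h621.NG

/-- The height inequality. -/
theorem hgt_ineq {k0 κ Λ A S : Type} [Field k0] [Field κ] [Field Λ] [Algebra κ Λ] [Algebra k0 Λ]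
    [IsAlgClosed κ] [CharZero κ] [IsFF κ Λ] [Fintype A] [DecidableEq A] [Fintype S] {n : ℕ}
    {c : Fin (n + 1)} {F : A → MvPolynomial (Fin (n + 1)) Λ} {dg : A → ℕ}
    {D : A → (Fin (n + 1) →₀ ℕ) → Derivation ℤ Λ Λ}
    {θ : A → (Fin (n + 1) →₀ ℕ) → S → Λ} {ε : A → (Fin (n + 1) →₀ ℕ) → Λ}
    {Q : S → A → MvPolynomial (Fin (n + 1)) Λ} (hFh : ∀ a, (F a).IsHomogeneous (dg a))
    (hD : DualE c F dg D θ ε Q)
    (hDk : ∀ a I (r : k0), D a I (algebraMap k0 Λ r) = 0) {e : Place κ Λ → ℤ} (he : ∀ P, 0 ≤ e P)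
    (hef : {P | e P ≠ 0}.Finite)
    (hloss : ∀ P f, Ge P 0 f → ∀ a, ∀ I ∈ St c (dg a), Ge P (-e P) (D a I f))
    (hθ : ∀ P a, ∀ I ∈ St c (dg a), ∀ r, Ge P (-e P) (θ a I r))
    {x : Fin (n + 1) → Λ} (hx : x c = 1) (hF : ∀ a, eval x (F a) = 0)
    {m : ℕ} (htr : Algebra.trdeg k0 (coords k0 x) ≤ m)
    (hnum : 2 * m + Fintype.card S + 2 ≤ ∑ a, (dg a + 1)) (j : Fin (n + 1)) :
    hgt κ (x j) ≤ (m + Fintype.card S : ℕ) * ∑ᶠ P, e P := by
  classical
  have hc : CharZero Λ := charZero_of_injective_algebraMap (algebraMap κ Λ).injective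
  have hx1 : LinearIndependent Λ (fun _ : Unit => x) := by
    rw [linearIndependent_unique_iff]
    intro h
    have h1 := congrFun h c
    rw [hx] at h1
    exact one_ne_zero h1
  have hx2 : LinearIndependent Λ (fun (ξ : Empty) (j : Fin (n + 1)) =>
      (ξ.elim : Derivation ℤ Λ Λ) (x j)) := linearIndependent_empty_type
  obtain ⟨τ, i1, υ1, i2, υ2, i3, t, u1, u2, b, hsp, hli, hcard⟩ := pick (X := Empty) hFh hD
    (E := fun x => x.elim) (fun x => x.elim) hx hF (hx1.sum_type hx2 (by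
      rw [Set.range_eq_empty (fun (ξ : Empty) (j : Fin (n + 1)) =>
        (ξ.elim : Derivation ℤ Λ Λ) (x j)), Submodule.span_empty]
      exact disjoint_bot_right))
    (N := Tan k0 x) (m := m) (tan_rank hx htr) ⟨1, 0, fun _ => rfl, fun l => by simp⟩
    (fun a I => ⟨0, D a I, hDk a I, fun l => by rw [zero_mul, zero_add]⟩)
    (fun x => x.elim)
  obtain ⟨Θ, hΘ⟩ : ∃ Θ, Θ = dt b (row c dg D θ (fun x : Empty => x.elim) t
    (fun a => Finsupp.single c (dg a))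
    (Sum.elim (fun y => Pi.single (Sum.inl (u1 y)) 1) fun y => Pi.single (u2 y) 1) x) := ⟨_, rfl⟩
  have hΘ0 : Θ ≠ 0 := by
    rw [hΘ]
    exact dt_ne_zero b hli
  obtain ⟨cf, hcf⟩ : ∃ cf : ℤ, cf = (∑ a, dg a : ℕ) + (Fintype.card S : ℤ) -
    (1 + Fintype.card Empty + 2 * Fintype.card τ + Fintype.card A + Fintype.card υ2 : ℕ) := ⟨_, rfl⟩
  have h1 : ∀ P : Place κ Λ, ∃ h : ℤ, 0 ≤ h ∧ (∀ j, Ge P (-h) (x j)) ∧
      cf * h - ((Fintype.card τ : ℤ) + (Fintype.card A : ℤ)) * e P ≤ P.ord Θ := by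
    intro P
    rw [hΘ, hcf]
    exact ord_dt P b hx hsp u1 u2 (fun f hf a I hI => hloss P f hf a I hI)
      (fun a I hI r => hθ P a I hI r) (fun _ _ x => x.elim) (by rw [← hΘ]; exact hΘ0)
  choose h h0 hM' hle using h1
  obtain ⟨T1, hT1⟩ := exists_supp (k := κ) (Finset.univ : Finset (Fin 2)) ![x j, Θ]
  obtain ⟨T, hT⟩ : ∃ T, T = T1 ∪ hef.toFinset := ⟨_, rfl⟩
  have hs1 : ∑ P ∈ T, P.ord Θ = 0 := sum_ord_finset _ _ fun P hP => by
    rw [hT]
    exact Finset.mem_union_left _ (hT1 1 (Finset.mem_univ _) P hP)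
  have hs2 : hgt κ (x j) = ∑ P ∈ T, max (-P.ord (x j)) 0 := hgt_finset _ _ fun P hP => by
    rw [hT]
    exact Finset.mem_union_left _ (hT1 0 (Finset.mem_univ _) P hP)
  have hs3 : ∑ᶠ P, e P = ∑ P ∈ T, e P := by
    rw [finsum_eq_sum_of_support_subset (s := T)]
    intro P hP
    rw [hT]
    exact Finset.mem_union_right _ (hef.mem_toFinset.2 hP)
  have hs4 : ∑ P ∈ T, max (-P.ord (x j)) 0 ≤ ∑ P ∈ T, h P := by
    refine Finset.sum_le_sum fun P _ => max_le ?_ (h0 P)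
    rcases hM' P j with h2 | h2
    · rw [h2, P.ord_zero]
      simpa using h0 P
    · linarith
  have hs5 := Finset.sum_le_sum (s := T) fun P _ => hle P
  rw [Finset.sum_sub_distrib, ← Finset.mul_sum, ← Finset.mul_sum, hs1, ← hs3] at hs5
  have hE : 0 ≤ ∑ᶠ P, e P := by
    rw [hs3]
    exact Finset.sum_nonneg fun P _ => he P
  have hH : 0 ≤ ∑ P ∈ T, h P := Finset.sum_nonneg fun P _ => h0 P
  rw [Finset.sum_add_distrib, Finset.sum_const, Finset.card_univ, smul_eq_mul, mul_one] at hnum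
  rw [Fintype.card_empty, zero_add] at hcard
  have hc1 : (1 : ℤ) ≤ cf := by
    rw [hcf, Fintype.card_empty]
    push_cast
    zify at hnum hcard
    linarith
  have hc2 : (Fintype.card τ : ℤ) + (Fintype.card A : ℤ) ≤ (m + Fintype.card S : ℕ) := by
    zify at hcard ⊢
    linarith
  rw [hs2]
  refine hs4.trans ?_
  have hs6 := mul_le_mul_of_nonneg_right hc1 hH
  have hs7 := mul_le_mul_of_nonneg_right hc2 hE
  linarith

end Pool.Agent.Run7.h621.NG
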