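import Pool.Agent.Run7.h621.FV.Principle

/-!
Height inequalities for the solutions of polynomial equations, some of whose coefficients are
generic, imply finiteness.
-/

set_option autoImplicit false

open MvPolynomial FF Pool.Agent.W603.LV Pool.Agent.W603.PV Pool.Agent.W602.RG
open Pool.Agent.TH145.GH Pool.Agent.W602.GT
open Pool.Agent.Run7.h621.FV (eval_mk')

namespace Pool.Agent.Run7.h621.NG

open scoped Classical in
/-- The height inequality for the solutions of polynomial equations. -/
def HtIneq (k0 : Type) [Field k0] {J β : Type} (B : Set β) (W : Set (MvPolynomial (J ⊕ β) k0))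
    (C : ℕ) : Prop :=
  ∀ (κ Λ : Type) [Field κ] [Field Λ] [Algebra κ Λ] [IsAlgClosed κ] [CharZero κ] [IsFF κ Λ]
    [Algebra k0 Λ] (c : β → Λ) (δ : B → Derivation ℤ Λ Λ) (e : Place κ Λ → ℤ) (x : J → Λ),
    (∀ b (r : k0), δ b (algebraMap k0 Λ r) = 0) →
    (∀ b b' : B, δ b (c b') = if b = b' then 1 else 0) →
    (∀ P, 0 ≤ e P) → {P | e P ≠ 0}.Finite → (∀ P f, Ge P 0 f → ∀ b, Ge P (-e P) (δ b f)) →
    (∀ P b, Ge P (-e P) (c b)) → (∀ P b b', Ge P (-e P) (δ b (c b'))) →
    (∀ f ∈ W, aeval (Sum.elim x c) f = 0) → ∀ j, hgt κ (x j) ≤ C * ∑ᶠ P, e P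

section heights

variable {k0 K ι : Type} [Field k0] [Field K] [Algebra k0 K] [IsAlgClosed K] [CharZero K]
  {y : ι → K} (E : IntermediateField (IntermediateField.adjoin k0 (Set.range y)) K)

open scoped Classical in
/-- The heights of the solutions are bounded. -/
theorem pr_heights (hy : AlgebraicIndependent k0 y)
    [FiniteDimensional (IntermediateField.adjoin k0 (Set.range y)) E] {J β : Type} [Finite β]
    {B : Set β} {W : Set (MvPolynomial (J ⊕ β) k0)} {C : ℕ} (hW : HtIneq k0 B W C) (c : β → E)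
    (D : B → Derivation ℤ K K) (hDE : ∀ b, ∀ x ∈ E, D b x ∈ E)
    (hDc : ∀ b b' : B, D b (c b') = if b = b' then 1 else 0)
    (hDk : ∀ b (r : k0), D b (algebraMap k0 K r) = 0)
    (hDy : ∀ b j, ∃ r : k0, D b (y j) = algebraMap k0 K r) (i : ι) :
    ∃ B' : ℤ, ∀ x : J → E, (∀ f ∈ W, aeval (Sum.elim (fun j => (x j : K)) fun b => (c b : K)) f = 0) →
      ∀ j, hgt (kap k0 y i) (⟨(x j : K), subset_LL y _ i (x j).2⟩ : LL k0 y (E : Set K) i) ≤ B' := by
  have := Fintype.ofFinite β
  have := Fintype.ofFinite B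
  have hFF : IsFF (kap k0 y i) (LL k0 y (E : Set K) i) := LL_ff E hy i
  have hac : IsAlgClosed (kap k0 y i) := acl_isAlgClosed _
  have hcz : CharZero (kap k0 y i) := charZero_of_injective_algebraMap
    (algebraMap ℚ (kap k0 y i)).injective
  let φ : E.toSubfield →+* LL k0 y (E : Set K) i :=
    { toFun := fun x => ⟨x, subset_LL y _ i x.2⟩
      map_one' := rfl
      map_mul' := fun _ _ => rfl
      map_zero' := rfl
      map_add' := fun _ _ => rfl }
  let D' : B → Derivation ℤ (LL k0 y (E : Set K) i) (LL k0 y (E : Set K) i) := fun b =>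
    resDer _ (D b) fun x hx => der_LL E (D b) (hDk b) (hDy b) (hDE b) i hx
  let ψ : k0 →+* LL k0 y (E : Set K) i :=
    { toFun := fun r => ⟨algebraMap k0 K r, subset_LL y _ i (k0_mem E r)⟩
      map_one' := Subtype.ext (map_one _)
      map_mul' := fun a b => Subtype.ext (map_mul _ a b)
      map_zero' := Subtype.ext (map_zero _)
      map_add' := fun a b => Subtype.ext (map_add _ a b) }
  let _ : Algebra k0 (LL k0 y (E : Set K) i) := ψ.toAlgebra
  obtain ⟨e1, he1, he1f, he1D⟩ := exists_loss_fin (k := kap k0 y i) (K := LL k0 y (E : Set K) i)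
    (D := D') (fun b c => ⟨⟨_, der_kap (D b) (hDk b) (hDy b) i c.2⟩, rfl⟩)
  obtain ⟨e2, he2, he2f, he2c⟩ := exists_poles (κ := kap k0 y i)
    (Finset.univ.image fun b => φ ⟨c b, (c b).2⟩)
  obtain ⟨e3, he3, he3f, he3c⟩ := exists_poles (κ := kap k0 y i)
    (Finset.univ.image fun p : B × β => D' p.1 (φ ⟨c p.2, (c p.2).2⟩))
  refine ⟨C * ∑ᶠ P, (e1 P + e2 P + e3 P), fun x hx j => ?_⟩
  refine hW (kap k0 y i) (LL k0 y (E : Set K) i) (fun b => φ ⟨c b, (c b).2⟩) D'
    (fun P => e1 P + e2 P + e3 P) (fun j => ⟨(x j : K), subset_LL y _ i (x j).2⟩) (fun b r => ?_)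
    (fun b b' => ?_) (fun P => add_nonneg (add_nonneg (he1 P) (he2 P)) (he3 P)) ?_
    (fun P f hf b => ?_) (fun P b => ?_) (fun P b b' => ?_) (fun f hf => ?_) j
  · apply Subtype.ext
    exact hDk b r
  · apply Subtype.ext
    change D b (c b') = _
    rw [hDc]
    split_ifs
    · rfl
    · rfl
  · refine ((he1f.union he2f).union he3f).subset fun P hP => ?_
    by_contra hcon
    rw [Set.mem_union, not_or, Set.mem_union, not_or] at hcon
    have h1 : ¬ (e1 P ≠ 0) := hcon.1.1
    have h2 : ¬ (e2 P ≠ 0) := hcon.1.2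
    have h3 : ¬ (e3 P ≠ 0) := hcon.2
    rw [not_not] at h1 h2 h3
    apply hP
    rw [h1, h2, h3, add_zero, add_zero]
  · have h1 := he2 P
    have h2 := he3 P
    exact (he1D P f hf b).mono (by omega)
  · have h1 := he1 P
    have h2 := he3 P
    exact (he2c P _ (Finset.mem_image_of_mem _ (Finset.mem_univ b))).mono (by omega)
  · have h1 := he1 P
    have h2 := he2 P
    exact (he3c P _ (Finset.mem_image_of_mem (fun p : B × β => D' p.1 (φ ⟨c p.2, (c p.2).2⟩))
      (Finset.mem_univ (b, b')))).mono (by omega)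
  · apply Subtype.ext
    have h1 := hom_eval₂ f ψ (algebraMap (LL k0 y (E : Set K) i) K)
      (Sum.elim (fun j => (⟨(x j : K), subset_LL y _ i (x j).2⟩ : LL k0 y (E : Set K) i))
        fun b => φ ⟨c b, (c b).2⟩)
    refine h1.trans ?_
    have h2 : (algebraMap (LL k0 y (E : Set K) i) K).comp ψ = algebraMap k0 K := by
      ext r
      rfl
    have h3 : (fun p => algebraMap (LL k0 y (E : Set K) i) K
      (Sum.elim (fun j => (⟨(x j : K), subset_LL y _ i (x j).2⟩ : LL k0 y (E : Set K) i))
        (fun b => φ ⟨c b, (c b).2⟩) p)) = Sum.elim (fun j => (x j : K)) fun b => (c b : K) := by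
      funext p
      rcases p with j | b
      · rfl
      · rfl
    rw [h2, h3]
    exact hx f hf

end heights

section limit

variable {k0 K : Type} [Field k0] [Field K] [Algebra k0 K] [IsAlgClosed k0] [IsAlgClosed K]
  [CharZero K]

open scoped Classical in
/-- Limits of solutions are constant. -/
theorem pr_limit (E : Subfield K) (hE : ∀ r : k0, algebraMap k0 K r ∈ E) {J β : Type} [Finite J]
    {B : Set β} {W : Set (MvPolynomial (J ⊕ β) k0)} {C : ℕ} (hW : HtIneq k0 B W C) (c : β → E)
    (D : B → Derivation ℤ K K) (hDE : ∀ b, ∀ x ∈ E, D b x ∈ E)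
    (hDc : ∀ b b' : B, D b (c b') = if b = b' then 1 else 0)
    (hDk : ∀ b (r : k0), D b (algebraMap k0 K r) = 0)
    (z : J → Om K) (hz : ∀ j, z j ∈ OE k0 (E : Set K))
    (hzW : ∀ f ∈ W, eval₂ ((cst K).comp (algebraMap k0 K)) (Sum.elim z fun b => cst K (c b)) f = 0)
    (j : J) : z j ∈ acl (cst K '' (E : Set K)) := by
  by_contra hj1
  obtain ⟨κ, Λ, M, hac, hFF, hEκ, hzΛ, hzκ, hXM, hMC, hder, hplace⟩ :=
    exists_rig E hE z hz ∅ (by simp) j hj1
  have hczOm : CharZero (Om K) :=
    charZero_of_injective_algebraMap (algebraMap K (Om K)).injective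
  have hcz : CharZero κ := charZero_of_injective_algebraMap (algebraMap ℚ κ).injective
  let φ : E →+* Λ :=
    { toFun := fun x => ⟨cst K x, Λ.algebraMap_mem ⟨cst K x, hEκ x x.2⟩⟩
      map_one' := Subtype.ext (map_one (cst K))
      map_mul' := fun a b => Subtype.ext (map_mul (cst K) (a : K) b)
      map_zero' := Subtype.ext (map_zero (cst K))
      map_add' := fun a b => Subtype.ext (map_add (cst K) (a : K) b) }
  have hd := fun b => hder (hat (D b)) (fun w hw => hat_CC (D b) (hDk b) hw)
    (fun x hx => ⟨D b x, hDE b x hx, hat_cst (D b) x⟩)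
  let D' : B → Derivation ℤ Λ Λ := fun b => resDer Λ (hat (D b)) (hd b).2
  have hD' : ∀ b (x : Λ), ((D' b x : Λ) : Om K) = hat (D b) x := fun b x => rfl
  have hS : ∀ b, Sem κ (D' b) := fun b c => ⟨⟨hat (D b) c, (hd b).1 c c.2⟩, rfl⟩
  have hM0 : ∀ b, ∀ m ∈ M, D' b m = 0 := by
    intro b m hm
    apply Subtype.ext
    rw [hD']
    exact hat_CC (D b) (hDk b) (hMC m hm)
  let ψ : k0 →+* E := (algebraMap k0 K).codRestrict E hE
  let _ : Algebra k0 Λ := (φ.comp ψ).toAlgebra
  have h1 := hW κ Λ (fun b => φ (c b)) D' (fun _ => 0) (fun j => ⟨z j, hzΛ j⟩) (fun b r => by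
      apply Subtype.ext
      change hat (D b) (cst K (algebraMap k0 K r)) = 0
      rw [hat_cst, hDk, map_zero]) (fun b b' => by
      apply Subtype.ext
      change hat (D b) (cst K (c b')) = _
      rw [hat_cst, hDc]
      split_ifs
      · rw [map_one]
        rfl
      · rw [map_zero]
        rfl) (fun _ => le_rfl) (by simp) (fun P f hf b => by
      rw [neg_zero]
      rcases hplace P with ⟨-, θ, hθM, c, hu⟩ | ⟨π, hπM, hπ⟩
      · refine reg_of_unif P hu (hS b) le_rfl ?_ hf
        obtain ⟨c', hc'⟩ := hS b c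
        rw [map_sub, hM0 b θ hθM, hc', zero_sub]
        exact (Ge.const c').neg
      · refine reg_of_unif P hπ (hS b) le_rfl ?_ hf
        rw [hM0 b π hπM]
        exact Ge.zero) (fun P b => by
      rw [neg_zero]
      have h2 : φ (c b) = algebraMap κ Λ ⟨cst K (c b), hEκ _ (c b).2⟩ := rfl
      rw [h2]
      exact Ge.const _) (fun P b b' => by
      rw [neg_zero]
      have h2 : D' b (φ (c b')) =
          algebraMap κ Λ ⟨cst K (D b (c b')), hEκ _ (hDE b _ (c b').2)⟩ := by
        apply Subtype.ext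
        change hat (D b) (cst K (c b')) = _
        rw [hat_cst]
        rfl
      rw [h2]
      exact Ge.const _) (fun f hf => by
      apply Subtype.ext
      have h1 := hom_eval₂ f (φ.comp ψ) (algebraMap Λ (Om K))
        (Sum.elim (fun j => (⟨z j, hzΛ j⟩ : Λ)) fun b => φ (c b))
      refine h1.trans ?_
      have h2 : (algebraMap Λ (Om K)).comp (φ.comp ψ) = (cst K).comp (algebraMap k0 K) := by
        ext r
        rfl
      have h3 : (fun p => algebraMap Λ (Om K) (Sum.elim (fun j => (⟨z j, hzΛ j⟩ : Λ))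
          (fun b => φ (c b)) p)) = Sum.elim z fun b => cst K (c b) := by
        funext p
        rcases p with j | b
        · rfl
        · rfl
      rw [h2, h3]
      exact hzW f hf) j
  rw [finsum_zero, mul_zero] at h1
  obtain ⟨c, hc⟩ := const_of_hgt h1
  apply hzκ
  have h2 := congrArg (fun w : Λ => (w : Om K)) hc
  change z j = (c : Om K) at h2
  rw [h2]
  exact c.2

end limit

section fin

variable {k0 K ι : Type} [Field k0] [Field K] [Algebra k0 K] [IsAlgClosed K] [CharZero K]
  {y : ι → K} (E : IntermediateField (IntermediateField.adjoin k0 (Set.range y)) K)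

open scoped Classical in
theorem pr_fin [IsAlgClosed k0] [Finite ι] (hy : IsTranscendenceBasis k0 y)
    [FiniteDimensional (IntermediateField.adjoin k0 (Set.range y)) E]
    [IsGalois (IntermediateField.adjoin k0 (Set.range y)) E] {J β : Type} [Finite J] [Finite β]
    {B : Set β} {W : Set (MvPolynomial (J ⊕ β) k0)} {C : ℕ} (hW : HtIneq k0 B W C) (c : β → E)
    (D : B → Derivation ℤ K K) (hDE : ∀ b, ∀ x ∈ E, D b x ∈ E)
    (hDc : ∀ b b' : B, D b (c b') = if b = b' then 1 else 0)
    (hDk : ∀ b (r : k0), D b (algebraMap k0 K r) = 0)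
    (hDy : ∀ b j, ∃ r : k0, D b (y j) = algebraMap k0 K r) :
    {x : J → K | (∀ j, x j ∈ E) ∧
      ∀ f ∈ W, aeval (Sum.elim x fun b => (c b : K)) f = 0}.Finite := by
  by_contra hinf
  let f := Set.Infinite.natEmbedding _ hinf
  obtain ⟨x, hx⟩ : ∃ x : ℕ → J → K, ∀ n, x n = (f n).1 := ⟨_, fun _ => rfl⟩
  have hxinj : Function.Injective x := by
    intro a b hab
    rw [hx, hx] at hab
    exact f.injective (Subtype.ext hab)
  have hxE : ∀ n j, x n j ∈ E := fun n j => by rw [hx]; exact (f n).2.1 j
  have hxW : ∀ n, ∀ g ∈ W, aeval (Sum.elim (x n) fun b => (c b : K)) g = 0 := fun n => by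
    rw [hx]; exact (f n).2.2
  choose B' hB' using fun i => pr_heights E hy.1 hW c D hDE hDc hDk hDy i
  have hz : ∀ j, Om.mk (fun n => x n j) ∈ OE k0 ((E.toSubfield : Subfield K) : Set K) := fun j =>
    lim_mem E hy (fun n => ⟨x n j, hxE n j⟩) B' fun n i =>
      hB' i (fun j => ⟨x n j, hxE n j⟩) (hxW n) j
  have hacl := pr_limit E.toSubfield (fun r => k0_mem E r) hW (fun b => ⟨c b, (c b).2⟩) D hDE hDc
    hDk (fun j => Om.mk fun n => x n j) hz (fun g hg => by
      have h1 := eval_mk' (fun n => Sum.elim (x n) fun b => (c b : K)) (map (algebraMap k0 K) g)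
      have h2 : (fun n => eval (Sum.elim (x n) fun b => (c b : K)) (map (algebraMap k0 K) g)) =
          fun _ => 0 := by
        funext n
        rw [eval_map]
        exact hxW n g hg
      rw [h2, eval₂_map] at h1
      have h3 : (fun p => Om.mk fun n => Sum.elim (x n) (fun b => (c b : K)) p) =
          Sum.elim (fun j => Om.mk fun n => x n j) fun b => cst K (c b) := by
        funext p
        rcases p with j | b
        · rfl
        · rfl
      rw [h3] at h1
      exact h1)
  choose a ha using fun j => eventually_const (hacl j)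
  exact not_all_const hxinj a ha

end fin

open scoped Classical in
/-- The finiteness principle. -/
theorem principle {k0 K : Type} [Field k0] [Field K] [Algebra k0 K] [IsAlgClosed k0]
    [IsAlgClosed K] [CharZero K] {J β : Type} [Finite J] [Finite β] {B : Set β}
    {W : Set (MvPolynomial (J ⊕ β) k0)} {C : ℕ} (hW : HtIneq k0 B W C) {c : β → K}
    (hind : AlgebraicIndependent k0 fun b : B => c b) (T0 : Finset K) :
    {x : J → K | (∀ j, x j ∈ IntermediateField.adjoin k0 (T0 : Set K)) ∧
      ∀ f ∈ W, aeval (Sum.elim x c) f = 0}.Finite := by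
  have := Fintype.ofFinite β
  obtain ⟨T, hTd⟩ : ∃ T : Finset K, T = T0 ∪ Finset.univ.image c := ⟨_, rfl⟩
  obtain ⟨B1, hB, K1, y, s, hK1, hy, hys, hs, hTK⟩ := exists_closed hind T
  have : Finite B1 := hB
  have hc : CharZero K1 := by
    constructor
    intro a b hab
    have h1 := congrArg (algebraMap K1 K) hab
    rw [map_natCast, map_natCast] at h1
    exact Nat.cast_injective h1
  have hinj : Function.Injective (algebraMap K1 K) := (algebraMap K1 K).injective
  obtain ⟨T1, hT1⟩ : ∃ T1 : Finset K1, ∀ t ∈ T, ∃ t1 ∈ T1, (t1 : K) = t := by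
    refine ⟨T.preimage (fun x : K1 => (x : K)) hinj.injOn, fun t ht => ?_⟩
    exact ⟨⟨t, hTK t ht⟩, Finset.mem_preimage.2 ht, rfl⟩
  -- the Galois extension
  have hck : CharZero k0 := by
    constructor
    intro a b hab
    have h1 := congrArg (algebraMap k0 K) hab
    rw [map_natCast, map_natCast] at h1
    exact Nat.cast_injective h1
  set R := IntermediateField.adjoin k0 (Set.range y) with hR
  have hcR : CharZero R := charZero_of_injective_algebraMap (algebraMap k0 R).injective
  have halg : Algebra.IsAlgebraic R K1 := hy.isAlgebraic_field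
  have hfin0 : FiniteDimensional R (IntermediateField.adjoin R (T1 : Set K1)) := by
    have : Finite (T1 : Set K1) := T1.finite_toSet
    exact IntermediateField.finiteDimensional_adjoin fun x _ =>
      (halg.isAlgebraic x).isIntegral
  obtain ⟨E, hE⟩ : ∃ E : IntermediateField R K1,
    E = IntermediateField.normalClosure R (IntermediateField.adjoin R (T1 : Set K1)) K1 := ⟨_, rfl⟩
  have hclo : IsAlgClosure R K1 := ⟨inferInstance, halg⟩
  have hnK : Normal R K1 := IsAlgClosure.normal R K1
  have hfin : FiniteDimensional R E := by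
    rw [hE]; infer_instance
  have hnE : Normal R E := by
    rw [hE]; infer_instance
  have hgal : IsGalois R E := { }
  have hTE : ∀ t ∈ T1, t ∈ E := by
    intro t ht
    rw [hE]
    exact (IntermediateField.le_normalClosure _) (IntermediateField.subset_adjoin _ _ ht)
  have hyE : ∀ j, y j ∈ E := fun j =>
    E.algebraMap_mem ⟨_, IntermediateField.subset_adjoin _ _ ⟨j, rfl⟩⟩
  -- the derivations
  have hD : ∀ b : B, ∃ D : Derivation k0 K1 K1, ∀ j, D (y j) = if s b = j then 1 else 0 :=
    fun b => Pool.Agent.W602.GT.exists_der y hy _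
  choose D hD using hD
  have hD' : ∀ b (r : k0), D b (algebraMap k0 K1 r) = 0 := fun b r => (D b).map_algebraMap r
  have hDy : ∀ b j, ∃ r : k0, D b (y j) = algebraMap k0 K1 r := by
    intro b j
    rw [hD]
    split_ifs
    · exact ⟨1, (map_one _).symm⟩
    · exact ⟨0, (map_zero _).symm⟩
  have hDR : ∀ b x, x ∈ R.toSubfield → (D b).restrictScalars ℤ x ∈ R.toSubfield := by
    intro b x hx
    rw [hR, IntermediateField.adjoin_toSubfield] at hx
    refine der_closure ((D b).restrictScalars ℤ) ?_ hx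
    rintro z (⟨r, rfl⟩ | ⟨j, rfl⟩)
    · refine ⟨R.algebraMap_mem r, ?_⟩
      change D b _ ∈ _
      rw [hD']
      exact zero_mem _
    · refine ⟨IntermediateField.subset_adjoin _ _ ⟨j, rfl⟩, ?_⟩
      change D b _ ∈ _
      obtain ⟨r, hr⟩ := hDy b j
      rw [hr]
      exact R.algebraMap_mem r
  have hDE : ∀ b x, x ∈ E.toSubfield → (D b).restrictScalars ℤ x ∈ E.toSubfield := by
    intro b x hx
    refine (isDer_top ((D b).restrictScalars ℤ)).mem_of_alg E.toSubfield trivial hx ?_
    have h1 : IsAlgebraic R.toSubfield x := halg.isAlgebraic x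
    refine Pool.Agent.TH145.MF.alg_mono ?_ h1
    intro z hz
    exact ⟨trivial, E.algebraMap_mem ⟨z, hz⟩, E.algebraMap_mem ⟨_, hDR b z hz⟩⟩
  have h8 : ∀ t ∈ IntermediateField.adjoin k0 (T : Set K), ∃ e : K1, e ∈ E ∧ (e : K) = t := by
    intro t ht
    have h9 : t ∈ Subfield.closure (Set.range (algebraMap k0 K) ∪ (T : Set K)) := by
      rw [← IntermediateField.adjoin_toSubfield]
      exact ht
    have h10 : Subfield.closure (Set.range (algebraMap k0 K) ∪ (T : Set K)) ≤
        E.toSubfield.map (algebraMap K1 K) := by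
      rw [Subfield.closure_le]
      rintro z (⟨r, rfl⟩ | hz)
      · exact ⟨algebraMap k0 K1 r, E.algebraMap_mem (algebraMap k0 _ r), rfl⟩
      · obtain ⟨t1, ht1, htz⟩ := hT1 z hz
        exact ⟨t1, hTE t1 ht1, htz⟩
    obtain ⟨e, he, het⟩ := h10 h9
    exact ⟨e, he, het⟩
  have hcE : ∀ b, ∃ z : K1, z ∈ E ∧ (z : K) = c b := fun b => by
    obtain ⟨t1, ht1, htz⟩ := hT1 (c b) (by
      rw [hTd]
      exact Finset.mem_union_right _ (Finset.mem_image_of_mem _ (Finset.mem_univ b)))
    exact ⟨t1, hTE t1 ht1, htz⟩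
  choose cE hcE hcE' using hcE
  have hcy : ∀ b : B, cE b = y (s b) := fun b => by
    apply (algebraMap K1 K).injective
    have h1 : algebraMap K1 K (y (s b)) = c b := hys b
    rw [h1]
    exact hcE' b
  have h9 := pr_fin E hy hW (fun b => ⟨cE b, hcE b⟩) (fun b => (D b).restrictScalars ℤ)
    hDE (fun b b' => by
      change D b (cE b') = _
      rw [hcy, hD]
      by_cases h : b = b'
      · rw [if_pos h, if_pos (by rw [h])]
      · rw [if_neg h, if_neg fun h' => h (hs h')]) hD' hDy
  refine (h9.image fun x j => (x j : K)).subset ?_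
  rintro x ⟨hx, hxW⟩
  have hx' : ∀ j, x j ∈ IntermediateField.adjoin k0 (T : Set K) := fun j => by
    refine IntermediateField.adjoin.mono k0 _ _ ?_ (hx j)
    rw [hTd, Finset.coe_union]
    exact Set.subset_union_left
  choose e he hex using fun j => h8 (x j) (hx' j)
  refine ⟨e, ⟨he, fun f hf => ?_⟩, funext hex⟩
  apply (algebraMap K1 K).injective
  have h10 := hom_eval₂ f (algebraMap k0 K1) (algebraMap K1 K) (Sum.elim e cE)
  refine h10.trans ?_
  have h11 : (fun p => algebraMap K1 K (Sum.elim e cE p)) = Sum.elim x c := by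
    funext p
    rcases p with j | b
    · exact hex j
    · exact hcE' b
  rw [map_zero, h11]
  exact hxW f hf

end Pool.Agent.Run7.h621.NG
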