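import Pool.Agent.Run7.h621.NG.Data
import Pool.Agent.Run7.h621.NG.Ineq
import Pool.Agent.Run7.h621.NG.Principle
import Pool.Agent.Run7.h621.FV.Planes

/-!
Finiteness of the rational points.
-/

set_option autoImplicit false

open MvPolynomial FF Pool.Agent.W603.LV Pool.Agent.W602.GT Pool.Agent.TH145.MG
open Pool.Agent.TH145.GD (St)
open Pool.Agent.TH145.GH (eval_smul_hom)
open LinearAlgebra.Projectivization

namespace Pool.Agent.Run7.h621.NG

variable {k0 A : Type} [Field k0] {n : ℕ} {J : A → Type} [∀ a, Fintype (J a)]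

/-- The equations. -/
noncomputable def Sys (P : ∀ a, J a → MvPolynomial (Fin (n + 1)) k0) (j0 : ∀ a, J a)
    (V : Set (MvPolynomial (Fin (n + 1)) k0)) (c0 : Fin (n + 1)) :
    Set (MvPolynomial (Fin (n + 1) ⊕ Bt j0) k0) :=
  {f | (∃ g ∈ V, f = rename Sum.inl g) ∨ f = X (Sum.inl c0) - 1 ∨
    ∃ a, f = ∑ j, cj j0 (fun b => X (Sum.inr b)) a j * rename Sum.inl (P a j)}

variable {P : ∀ a, J a → MvPolynomial (Fin (n + 1)) k0} {j0 : ∀ a, J a}

theorem sys_iff {V : Set (MvPolynomial (Fin (n + 1)) k0)} {c0 : Fin (n + 1)} {Λ : Type} [Field Λ]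
    [Algebra k0 Λ] (x : Fin (n + 1) → Λ) (c : Bt j0 → Λ) :
    (∀ f ∈ Sys P j0 V c0, aeval (Sum.elim x c) f = 0) ↔
      (∀ g ∈ V, aeval x g = 0) ∧ x c0 = 1 ∧ ∀ a, eval x (NF P j0 c a) = 0 := by
  have h1 : ∀ g : MvPolynomial (Fin (n + 1)) k0,
      aeval (Sum.elim x c) (rename (Sum.inl : Fin (n + 1) → Fin (n + 1) ⊕ Bt j0) g) =
        aeval x g := by
    intro g
    rw [aeval_rename, Sum.elim_comp_inl]
  have h2 : aeval (Sum.elim x c) (X (Sum.inl c0) - 1 : MvPolynomial (Fin (n + 1) ⊕ Bt j0) k0) =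
      x c0 - 1 := by
    rw [map_sub, aeval_X, map_one, Sum.elim_inl]
  have h3 : ∀ a, aeval (Sum.elim x c) (∑ j, cj j0 (fun b => (X (Sum.inr b) :
      MvPolynomial (Fin (n + 1) ⊕ Bt j0) k0)) a j * rename Sum.inl (P a j)) =
        eval x (NF P j0 c a) := by
    intro a
    rw [map_sum, NF, map_sum]
    refine Finset.sum_congr rfl fun j _ => ?_
    have h4 : eval x (map (algebraMap k0 Λ) (P a j)) = aeval x (P a j) := by
      rw [eval_map, aeval_def]
    rw [map_mul, map_mul, h1, eval_C, h4, cj, cj]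
    congr 1
    split_ifs
    · rw [map_one]
    · rw [aeval_X, Sum.elim_inr]
  constructor
  · intro h
    refine ⟨fun g hg => ?_, ?_, fun a => ?_⟩
    · rw [← h1]
      exact h _ (Or.inl ⟨g, hg, rfl⟩)
    · rw [← sub_eq_zero, ← h2]
      exact h _ (Or.inr (Or.inl rfl))
    · rw [← h3]
      exact h _ (Or.inr (Or.inr ⟨a, rfl⟩))
  · rintro ⟨hV, hc0, hF⟩ f (⟨g, hg, rfl⟩ | rfl | ⟨a, rfl⟩)
    · rw [h1]
      exact hV g hg
    · rw [h2, hc0, sub_self]
    · rw [h3, hF]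

/-- The height inequality for the solutions. -/
theorem sys_ineq [Fintype A] [DecidableEq A] {dg : A → ℕ}
    (hP : ∀ a j, (P a j).IsHomogeneous (dg a))
    {V : Set (MvPolynomial (Fin (n + 1)) k0)} {m s : ℕ} (hV : DimLE k0 V m) {c0 : Fin (n + 1)}
    (hSt : ∀ a, ∀ I ∈ St c0 (dg a), ∃ j, P a j = monomial I 1) {B : Set (Bt j0)}
    (hB : Nat.card {b : Bt j0 // b ∉ B} ≤ s) (hnum : 2 * m + s + 2 ≤ ∑ a, (dg a + 1)) :
    HtIneq k0 B (Sys P j0 V c0) (2 * (m + s)) := by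
  classical
  intro κ Λ _ _ _ _ _ _ _ c δ e x hk hδ he hef hloss hpole hδc hx j
  have := Fintype.ofFinite B
  have := Fintype.ofFinite {b : Bt j0 // b ∉ B}
  obtain ⟨hxV, hx1, hF⟩ := (sys_iff x c).1 hx
  have hx0 : x ≠ 0 := by
    rintro rfl
    exact zero_ne_one hx1
  obtain ⟨ρ, ε, hρ, hD⟩ := exists_data (dg := dg) δ hk c (fun b b' => by
    by_cases h : b = b'
    · exact Or.inl ⟨h, by rw [hδ, if_pos h]⟩
    · exact Or.inr ⟨h, by rw [hδ, if_neg h]⟩) hSt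
  have hρe : ∀ Q a I q, Ge Q (-e Q) (ρ a I q) := by
    intro Q a I q
    have h3 := he Q
    rcases hρ a I q with h | h | h
    · rw [h]; exact Ge.zero
    · rw [h]; exact Ge.one.mono (by omega)
    · rw [h]; exact (hpole Q q).neg
  rw [Nat.card_eq_fintype_card] at hB
  have h1 := hgt_ineq (k0 := k0) (κ := κ) (m := m) (e := fun Q => 2 * e Q)
    (NF_hom hP c) hD (fun a I r => by
      rw [Dr_apply]
      exact Finset.sum_eq_zero fun b _ => by rw [hk, mul_zero]) (fun Q => by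
      have := he Q
      omega) (by
      refine hef.subset fun Q hQ => ?_
      intro h
      apply hQ
      rw [h, mul_zero]) (fun Q f hf a I _ => by
      rw [Dr_apply]
      refine Ge.sum _ _ fun b _ => ?_
      exact ((hρe Q a I b).mul (hloss Q f hf b)).mono (by omega)) (fun Q a I _ r => by
      have h3 := he Q
      refine Ge.sub ?_ ((hρe Q a I r).mono (by omega))
      refine Ge.sum _ _ fun b _ => ?_
      exact ((hρe Q a I b).mul (hδc Q b r)).mono (by omega)) hx1 hF (hV Λ x hx0 hxV)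
    (le_trans (by omega) hnum) j
  have h2 : ∑ᶠ P, 2 * e P = 2 * ∑ᶠ P, e P := by
    rw [mul_finsum]
  rw [h2] at h1
  have hE : 0 ≤ ∑ᶠ P, e P := finsum_nonneg he
  refine h1.trans ?_
  have h3 : ((m + Fintype.card {b : Bt j0 // b ∉ B} : ℕ) : ℤ) ≤ (m + s : ℕ) := by
    exact_mod_cast Nat.add_le_add_left hB m
  have h4 := mul_le_mul_of_nonneg_right h3 (by linarith : 0 ≤ 2 * ∑ᶠ P, e P)
  refine h4.trans (le_of_eq ?_)
  push_cast
  ring

section fin

variable {K : Type} [Field K] [Algebra k0 K] [IsAlgClosed k0] [IsAlgClosed K] [CharZero K]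

omit [IsAlgClosed k0] [IsAlgClosed K] [CharZero K] in
/-- The form in terms of the normalised one. -/
theorem form_eq (t : ∀ a, J a → K) (h0 : ∀ a, t a (j0 a) ≠ 0) (a : A) :
    ∑ j, C (t a j) * map (algebraMap k0 K) (P a j) =
      C (t a (j0 a)) * NF P j0 (fun p : Bt j0 => t p.1 p.2.1 / t p.1 (j0 p.1)) a := by
  rw [NF, Finset.mul_sum]
  refine Finset.sum_congr rfl fun j _ => ?_
  rw [← mul_assoc, ← C_mul, cj]
  split_ifs with h
  · rw [h, mul_one]
  · rw [mul_div_cancel₀ _ (h0 a)]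

/-- Finiteness of the points. -/
theorem fin_points [Fintype A] [DecidableEq A] {dg : A → ℕ}
    (hP : ∀ a j, (P a j).IsHomogeneous (dg a))
    {V : Set (MvPolynomial (Fin (n + 1)) k0)} (hVh : ∀ f ∈ V, ∃ e, f.IsHomogeneous e) {m s : ℕ}
    (hV : DimLE k0 V m) (Z : Set (Fin (n + 1)))
    (hSt : ∀ c0 ∈ Z, ∀ a, ∀ I ∈ St c0 (dg a), ∃ j, P a j = monomial I 1)
    (hnum : 2 * m + s + 2 ≤ ∑ a, (dg a + 1)) (t : ∀ a, J a → K) (h0 : ∀ a, t a (j0 a) ≠ 0)
    {B : Set (Bt j0)} (hB : Nat.card {b : Bt j0 // b ∉ B} ≤ s)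
    (hind : AlgebraicIndependent k0 fun p : B => t p.1.1 p.1.2.1 / t p.1.1 (j0 p.1.1))
    {F : A → MvPolynomial (Fin (n + 1)) K}
    (hF : ∀ a, F a = ∑ j, C (t a j) * map (algebraMap k0 K) (P a j)) (T : Finset K) :
    {p : ℙ K (Fin (n + 1) → K) | (∃ c ∈ Z, p.rep c ≠ 0) ∧ ∃ x : Fin (n + 1) → K,
      (∀ i, x i ∈ IntermediateField.adjoin k0 (T : Set K)) ∧
      (∀ f ∈ V, aeval x f = 0) ∧ (∀ a, eval x (F a) = 0) ∧
      ∃ hx : x ≠ 0, p = Projectivization.mk K x hx}.Finite := by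
  obtain ⟨c, hc⟩ : ∃ c : Bt j0 → K, ∀ p, c p = t p.1 p.2.1 / t p.1 (j0 p.1) := ⟨_, fun _ => rfl⟩
  have hc' : c = fun p : Bt j0 => t p.1 p.2.1 / t p.1 (j0 p.1) := funext hc
  have hindc : AlgebraicIndependent k0 fun b : B => c b := by
    have : (fun b : B => c b) = fun p : B => t p.1.1 p.1.2.1 / t p.1.1 (j0 p.1.1) :=
      funext fun b => hc b
    rw [this]
    exact hind
  have h1 : ∀ c0 ∈ Z, {x : Fin (n + 1) → K |
      (∀ j, x j ∈ IntermediateField.adjoin k0 (T : Set K)) ∧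
      ∀ f ∈ Sys P j0 V c0, aeval (Sum.elim x c) f = 0}.Finite := fun c0 hc0 =>
    principle (sys_ineq hP hV (hSt c0 hc0) hB hnum) hindc T
  have h2 : (⋃ c0 ∈ Z, {x : Fin (n + 1) → K |
      (∀ j, x j ∈ IntermediateField.adjoin k0 (T : Set K)) ∧
      ∀ f ∈ Sys P j0 V c0, aeval (Sum.elim x c) f = 0}).Finite :=
    Set.Finite.biUnion (Set.toFinite Z) h1
  have h3 := h2.image fun x : Fin (n + 1) → K => Submodule.span K {x}
  refine Set.Finite.of_finite_image (f := fun p : ℙ K (Fin (n + 1) → K) => p.submodule)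
    (h3.subset ?_) (Projectivization.submodule_injective.injOn)
  rintro _ ⟨p, ⟨⟨c0, hc0, hpc⟩, x, hxT, hxV, hxF, hx, rfl⟩, rfl⟩
  have hxc : x c0 ≠ 0 := by
    intro h
    apply hpc
    obtain ⟨a, ha⟩ := Projectivization.exists_smul_eq_mk_rep K x hx
    rw [← ha, Pi.smul_apply, h, smul_zero]
  refine ⟨(x c0)⁻¹ • x, ?_, ?_⟩
  · rw [Set.mem_iUnion₂]
    refine ⟨c0, hc0, fun j => ?_, (sys_iff _ _).2 ⟨fun g hg => ?_, ?_, fun a => ?_⟩⟩
    · rw [Pi.smul_apply, smul_eq_mul]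
      exact mul_mem (inv_mem (hxT _)) (hxT _)
    · obtain ⟨e, he⟩ := hVh g hg
      rw [Pool.Agent.Run7.h621.FV.aeval_smul' he, hxV g hg, mul_zero]
    · rw [Pi.smul_apply, smul_eq_mul, inv_mul_cancel₀ hxc]
    · have h4 := hxF a
      rw [hF, form_eq t h0, ← hc', map_mul, eval_C] at h4
      rw [eval_smul_hom (NF_hom hP c a), (mul_eq_zero.1 h4).resolve_left (h0 a), mul_zero]
  · change Submodule.span K {(x c0)⁻¹ • x} = (Projectivization.mk K x hx).submodule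
    rw [Projectivization.submodule_mk]
    exact Submodule.span_singleton_smul_eq (isUnit_iff_ne_zero.2 (inv_ne_zero hxc)) x

end fin

end Pool.Agent.Run7.h621.NG
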