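import Pool.Agent.Run7.h621.NG.Rows
import Pool.Agent.TH145.GH.Ineq

/-!
The order of the determinant of the rows at a place.
-/

set_option autoImplicit false

open MvPolynomial FF Pool.Agent.W603.LV Pool.Agent.W603.PV Pool.Agent.TH145.GH

namespace Pool.Agent.Run7.h621.NG

variable {k L : Type} [Field k] [Field L] [Algebra k L]

theorem ge_dt {κ ι : Type} [Fintype κ] [DecidableEq κ] [Fintype ι] (P : Place k L) (e : κ ≃ ι)
    {v : ι → κ → L} {w : ι → ℤ} (h : ∀ i p, Ge P (w i) (v i p)) : Ge P (∑ i, w i) (dt e v) := by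
  rw [dt, Matrix.det_apply']
  refine Ge.sum _ _ fun π _ => ?_
  have h1 := (Ge.intCast (P := P) (Equiv.Perm.sign π : ℤ)).mul
    (Ge.prod Finset.univ (fun i : κ => (Matrix.of fun p q : κ => v (e p) q) (π i) i)
      (fun i => w (e (π i))) (fun i _ => h _ _))
  rw [zero_add, Equiv.sum_comp π (fun i => w (e i)), Equiv.sum_comp e] at h1
  exact h1

variable {n : ℕ} {A S X τ υ1 υ2 : Type}

/-- The order of the determinant of the rows at a place. -/
theorem ord_dt [Fintype S] [DecidableEq S] [Fintype X] [Fintype τ] [Fintype A] [Fintype υ1]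
    [Fintype υ2] (P : Place k L) {c : Fin (n + 1)} {dg : A → ℕ}
    {D : A → (Fin (n + 1) →₀ ℕ) → Derivation ℤ L L}
    {θ : A → (Fin (n + 1) →₀ ℕ) → S → L} {E : X → Derivation ℤ L L}
    {t : τ → A × Fin (n + 1) × ℕ}
    (e : Fin (n + 1) ⊕ S ≃ (Unit ⊕ (X ⊕ τ)) ⊕ (A ⊕ (υ1 ⊕ υ2)))
    {x : Fin (n + 1) → L} (hc : x c = 1) (hsp : Spans c dg D θ E t x)
    (u1 : υ1 → Fin (n + 1)) (u2 : υ2 → Fin (n + 1) ⊕ S) {e' : ℤ}
    (hD : ∀ f, Ge P 0 f → ∀ a, ∀ I ∈ Pool.Agent.TH145.GD.St c (dg a), Ge P (-e') (D a I f))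
    (hθ : ∀ a, ∀ I ∈ Pool.Agent.TH145.GD.St c (dg a), ∀ r, Ge P (-e') (θ a I r))
    (hE : ∀ f, Ge P 0 f → ∀ ξ, Ge P 0 (E ξ f))
    (hne : dt e (row c dg D θ E t (fun a => Finsupp.single c (dg a))
      (Sum.elim (fun y => Pi.single (Sum.inl (u1 y)) 1) fun y => Pi.single (u2 y) 1) x) ≠ 0) :
    ∃ h : ℤ, 0 ≤ h ∧ (∀ j, Ge P (-h) (x j)) ∧
      ((∑ a, dg a : ℕ) + (Fintype.card S : ℤ) - (1 + Fintype.card X + 2 * Fintype.card τ +
        Fintype.card A + Fintype.card υ2 : ℕ)) * h -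
        ((Fintype.card τ : ℤ) + (Fintype.card A : ℤ)) * e' ≤
      P.ord (dt e (row c dg D θ E t (fun a => Finsupp.single c (dg a))
        (Sum.elim (fun y => Pi.single (Sum.inl (u1 y)) 1) fun y => Pi.single (u2 y) 1) x)) := by
  have hx0 : x ≠ 0 := by
    rintro rfl
    exact zero_ne_one hc
  obtain ⟨lam, x', hlam, hlamP, hxx, hx', j1, hj1⟩ := exists_scaled P hx0
  have hord : P.ord lam ≤ 0 := by
    have h1 := pord_le P (f := x) (j := c) (by rw [hc]; exact one_ne_zero)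
    rw [hc, P.ord_one] at h1
    rw [hlamP]
    exact h1
  obtain ⟨u, hu⟩ : ∃ u : υ1 ⊕ υ2 → Fin (n + 1) ⊕ S → L, u =
    Sum.elim (fun y => Pi.single (Sum.inl (u1 y)) 1) fun y => Pi.single (u2 y) 1 := ⟨_, rfl⟩
  rw [← hu] at hne ⊢
  refine ⟨- P.ord lam, by omega, fun j => ?_, ?_⟩
  · rw [neg_neg, hxx, Pi.smul_apply, smul_eq_mul]
    have h0 : Ge P (P.ord lam) lam := Or.inr le_rfl
    have h1 := h0.mul (hx' j)
    rwa [add_zero] at h1
  have h1 := dt_chart e hlam hxx (by rw [hc]; exact one_ne_zero) hj1 hsp u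
  rw [hc, one_pow, one_mul] at h1
  obtain ⟨v', hv'⟩ : ∃ v', v' = row c dg D θ E t (fun a => Finsupp.single j1 (dg a)) (sU lam u) x' :=
    ⟨_, rfl⟩
  rw [← hv'] at h1
  have hv'0 : dt e v' ≠ 0 := by
    intro h2
    rw [h2, mul_zero] at h1
    exact mul_ne_zero (pow_ne_zero _ hlam) hne h1
  have h2 := congrArg P.ord h1
  rw [P.ord_mul (pow_ne_zero _ hlam) hne, P.ord_mul (pow_ne_zero _ hlam) hv'0, P.ord_pow,
    P.ord_pow] at h2
  have hR : ∀ a, ∀ I ∈ Pool.Agent.TH145.GD.St c (dg a), ∀ q, Ge P (-e') (R D θ x' a I q) := by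
    intro a I hI q
    rcases q with j | r
    · exact hD _ (hx' j) a I hI
    · exact hθ a I hI r
  have hlg : Ge P 0 lam⁻¹ := by
    right
    rw [P.ord_inv]
    omega
  have h3 := ge_dt P e (v := v') (w := fun i => match i with
    | Sum.inl (Sum.inl _) => 0
    | Sum.inl (Sum.inr (Sum.inl _)) => 0
    | Sum.inl (Sum.inr (Sum.inr _)) => -e'
    | Sum.inr (Sum.inl _) => -e'
    | Sum.inr (Sum.inr _) => 0) (by
    rw [hv']
    rintro ((p | ξ | y) | (a | y | y)) q
    · rcases q with j | r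
      · exact hx' j
      · exact Ge.zero
    · rcases q with j | r
      · exact hE _ (hx' j) ξ
      · exact Ge.zero
    · change Ge P (-e') (T c dg D θ x' (t y) q)
      rw [T]
      split_ifs with hy
      · refine Ge.mono (by omega : -e' ≤ 0 + -e') (Ge.sub ?_ ?_)
        · exact (hx' _).mul (hR _ _ (Pool.Agent.TH145.GD.sM_mem (by omega)) q)
        · exact (hx' _).mul (hR _ _ (Pool.Agent.TH145.GD.sM_mem (by omega)) q)
      · exact Ge.zero
    · exact hR a _ (Pool.Agent.TH145.GD.single_mem _) q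
    · change Ge P 0 (cS n S lam q * u (Sum.inl y) q)
      rw [hu, Sum.elim_inl, Pi.single_apply]
      split_ifs with h
      · rw [h, mul_one]
        exact Ge.one
      · rw [mul_zero]
        exact Ge.zero
    · change Ge P 0 (lam⁻¹ * (cS n S lam q * u (Sum.inr y) q))
      rw [hu, Sum.elim_inr, Pi.single_apply]
      split_ifs with h
      · rcases q with j | r
        · change Ge P 0 (lam⁻¹ * (1 * 1))
          rw [mul_one, mul_one]
          exact hlg
        · change Ge P 0 (lam⁻¹ * (lam * 1))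
          rw [mul_one, inv_mul_cancel₀ hlam]
          exact Ge.one
      · rw [mul_zero, mul_zero]
        exact Ge.zero)
  rw [Fintype.sum_sum_type, Fintype.sum_sum_type, Fintype.sum_sum_type, Fintype.sum_sum_type] at h3
  simp only [Finset.sum_const_zero, Finset.sum_const, Finset.card_univ, nsmul_eq_mul, zero_add,
    add_zero] at h3
  have h4 := h3.resolve_left hv'0
  push_cast at h2 h4 ⊢
  linarith

end Pool.Agent.Run7.h621.NG
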