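import Pool.Agent.Run7.h621.NG.Pick

/-!
The extended derivations for the members of linear systems, some of whose coefficients are generic.
-/

set_option autoImplicit false

open MvPolynomial
open Pool.Agent.TH145.GD (St)
open Pool.Agent.Run7.h621.FV (cd coeff_cd)

namespace Pool.Agent.Run7.h621.NG

variable {k0 A : Type} [Field k0] {n : ℕ} {J : A → Type} [∀ a, Fintype (J a)]

/-- The indices of the coefficients that are not one. -/
abbrev Bt (j0 : ∀ a, J a) : Type := (a : A) × {j : J a // j ≠ j0 a}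

open scoped Classical in
/-- The coefficients. -/
noncomputable def cj {R : Type} [CommRing R] (j0 : ∀ a, J a) (c : Bt j0 → R) (a : A) (j : J a) : R :=
  if h : j = j0 a then 1 else c ⟨a, j, h⟩

/-- The forms. -/
noncomputable def NF (P : ∀ a, J a → MvPolynomial (Fin (n + 1)) k0) (j0 : ∀ a, J a)
    {L : Type} [Field L] [Algebra k0 L] (c : Bt j0 → L) (a : A) : MvPolynomial (Fin (n + 1)) L :=
  ∑ j, C (cj j0 c a j) * map (algebraMap k0 L) (P a j)

variable {P : ∀ a, J a → MvPolynomial (Fin (n + 1)) k0} {j0 : ∀ a, J a}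

theorem NF_hom {dg : A → ℕ} (hP : ∀ a j, (P a j).IsHomogeneous (dg a))
    {L : Type} [Field L] [Algebra k0 L] (c : Bt j0 → L) (a : A) :
    (NF P j0 c a).IsHomogeneous (dg a) := by
  refine IsHomogeneous.sum _ _ _ fun j _ => ?_
  have := (isHomogeneous_C (Fin (n + 1)) (cj j0 c a j)).mul ((hP a j).map (algebraMap k0 L))
  rwa [zero_add] at this

section

variable [Fintype A] [DecidableEq A] {L : Type} [Field L] [Algebra k0 L]

omit [DecidableEq A] in
/-- The sum over the coefficients. -/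
theorem sum_Bt [DecidableEq A] {M : Type} [AddCommGroup M] (b : A) (f : J b → M) (g : Bt j0 → M)
    (h0 : f (j0 b) = 0) (h : ∀ (j : J b) (hj : j ≠ j0 b), f j = g ⟨b, j, hj⟩) :
    ∑ j, f j = ∑ᶠ q : Bt j0, if q.1 = b then g q else 0 := by
  classical
  rw [finsum_eq_sum_of_fintype, Fintype.sum_sigma, Finset.sum_eq_single b]
  · simp only [if_true]
    have h1 : ∑ j ∈ Finset.univ.filter (fun j => j ≠ j0 b), f j =
        ∑ j : {j : J b // j ≠ j0 b}, g ⟨b, j⟩ := by
      rw [← Finset.sum_subtype_eq_sum_filter]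
      rw [Finset.subtype_univ]
      exact Finset.sum_congr rfl fun j _ => h j.1 j.2
    rw [← h1]
    symm
    refine Finset.sum_subset (Finset.filter_subset _ _) fun j _ hj => ?_
    rw [Finset.mem_filter, not_and_or, not_not] at hj
    rcases hj with hj | hj
    · exact absurd (Finset.mem_univ _) hj
    · rw [hj, h0]
  · intro a _ ha
    exact Finset.sum_eq_zero fun j _ => if_neg ha
  · intro h; exact absurd (Finset.mem_univ _) h

theorem cd_NF (c : Bt j0 → L) (δ : Derivation ℤ L L) (hδ : ∀ r : k0, δ (algebraMap k0 L r) = 0)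
    (b : A) : cd δ (NF P j0 c b) = ∑ᶠ q : Bt j0, if q.1 = b then
      δ (c q) • map (algebraMap k0 L) (P q.1 q.2.1) else 0 := by
  rw [← sum_Bt (j0 := j0) b (fun j => δ (cj j0 c b j) • map (algebraMap k0 L) (P b j))
    (fun q => δ (c q) • map (algebraMap k0 L) (P q.1 q.2.1)) (by
      rw [cj, dif_pos rfl, δ.map_one_eq_zero, zero_smul]) (fun j hj => by
      rw [cj, dif_neg hj])]
  ext u
  rw [coeff_cd, NF, coeff_sum, coeff_sum, map_sum]
  refine Finset.sum_congr rfl fun j _ => ?_
  rw [coeff_C_mul, coeff_map, coeff_smul, coeff_map, δ.leibniz, hδ, smul_zero, zero_add,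
    smul_eq_mul, smul_eq_mul, mul_comm]

/-- The derivation with the coefficients `ρ`. -/
noncomputable def Dr {B : Set (Bt j0)} [Fintype B] (δ : B → Derivation ℤ L L) (ρ : Bt j0 → L) :
    Derivation ℤ L L := ∑ b : B, ρ b • δ b

/-- The additional components. -/
noncomputable def θr {B : Set (Bt j0)} [Fintype B] (δ : B → Derivation ℤ L L) (c : Bt j0 → L)
    (ρ : Bt j0 → L) (s : {b : Bt j0 // b ∉ B}) : L := ∑ b : B, ρ b * δ b (c s) - ρ s

/-- The additional polynomials. -/
noncomputable def Qr (P : ∀ a, J a → MvPolynomial (Fin (n + 1)) k0) (L : Type) [Field L]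
    [Algebra k0 L] (B : Set (Bt j0)) (s : {b : Bt j0 // b ∉ B}) (b : A) :
    MvPolynomial (Fin (n + 1)) L :=
  if s.1.1 = b then map (algebraMap k0 L) (P s.1.1 s.1.2.1) else 0

omit [∀ a, Fintype (J a)] [Fintype A] [DecidableEq A] in
theorem Dr_apply {B : Set (Bt j0)} [Fintype B] (δ : B → Derivation ℤ L L) (ρ : Bt j0 → L) (f : L) :
    Dr δ ρ f = ∑ b : B, ρ b * δ b f := by
  rw [Dr, ← Derivation.coeFnAddMonoidHom_apply, map_sum, Finset.sum_apply]
  rfl

theorem NF_eq (c : Bt j0 → L) (b : A) : NF P j0 c b = map (algebraMap k0 L) (P b (j0 b)) +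
    ∑ᶠ q : Bt j0, if q.1 = b then c q • map (algebraMap k0 L) (P q.1 q.2.1) else 0 := by
  classical
  rw [← sum_Bt (j0 := j0) b (fun j => if j = j0 b then 0 else
    C (cj j0 c b j) * map (algebraMap k0 L) (P b j))
    (fun q => c q • map (algebraMap k0 L) (P q.1 q.2.1)) (if_pos rfl) (fun j hj => by
      rw [if_neg hj, cj, dif_neg hj, smul_eq_C_mul]), NF,
    ← Finset.add_sum_erase _ _ (Finset.mem_univ (j0 b)),
    ← Finset.add_sum_erase Finset.univ (fun j => if j = j0 b then 0 else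
      C (cj j0 c b j) * map (algebraMap k0 L) (P b j)) (Finset.mem_univ (j0 b)),
    if_pos rfl, zero_add, cj, dif_pos rfl, C_1, one_mul]
  congr 1
  refine Finset.sum_congr rfl fun j hj => ?_
  rw [if_neg (Finset.ne_of_mem_erase hj)]

theorem sum_split {ι M : Type} [Fintype ι] [AddCommMonoid M] (B : Set ι) [Fintype B]
    [Fintype {b : ι // b ∉ B}] (f : ι → M) :
    ∑ i, f i = ∑ q : B, f q + ∑ s : {b : ι // b ∉ B}, f s := by
  classical
  rw [← (Equiv.sumCompl (fun q => q ∈ B)).sum_comp f, Fintype.sum_sum_type]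
  rfl

open scoped Classical in
theorem cd_Dr {B : Set (Bt j0)} [Fintype B] [Fintype {b : Bt j0 // b ∉ B}]
    (δ : B → Derivation ℤ L L)
    (hδk : ∀ b (r : k0), δ b (algebraMap k0 L r) = 0) (c : Bt j0 → L)
    (hδ : ∀ b b' : B, δ b (c b') = if b = b' then 1 else 0) (ρ : Bt j0 → L) (b : A) :
    cd (Dr δ ρ) (NF P j0 c b) = (∑ᶠ q : Bt j0, if q.1 = b then
      ρ q • map (algebraMap k0 L) (P q.1 q.2.1) else 0) + ∑ s, θr δ c ρ s • Qr P L B s b := by
  rw [cd_NF c _ (fun r => by
    rw [Dr_apply]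
    exact Finset.sum_eq_zero fun b _ => by rw [hδk, mul_zero])]
  obtain ⟨g, hg⟩ : ∃ g : Bt j0 → MvPolynomial (Fin (n + 1)) L, ∀ q, g q = if q.1 = b then
    map (algebraMap k0 L) (P q.1 q.2.1) else 0 := ⟨_, fun _ => rfl⟩
  have h1 : ∀ (r : Bt j0 → L), (∑ᶠ q : Bt j0, if q.1 = b then
      r q • map (algebraMap k0 L) (P q.1 q.2.1) else 0) =
      ∑ q : B, r q • g q + ∑ s : {b : Bt j0 // b ∉ B}, r s • g s := by
    intro r
    have h2 : (fun q : Bt j0 => if q.1 = b then
        r q • map (algebraMap k0 L) (P q.1 q.2.1) else 0) = fun q => r q • g q := by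
      funext q
      rw [hg]
      split_ifs
      · rfl
      · rw [smul_zero]
    rw [h2, finsum_eq_sum_of_fintype]
    exact sum_split B fun q => r q • g q
  rw [h1, h1, add_assoc]
  congr 1
  · refine Finset.sum_congr rfl fun q _ => ?_
    rw [Dr_apply, Finset.sum_eq_single q, hδ, if_pos rfl, mul_one]
    · intro b' _ hb'
      rw [hδ, if_neg hb', mul_zero]
    · intro h; exact absurd (Finset.mem_univ _) h
  · rw [← Finset.sum_add_distrib]
    refine Finset.sum_congr rfl fun s _ => ?_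
    have h2 : Qr P L B s b = g s := by rw [hg]; rfl
    rw [h2, θr, Dr_apply, sub_smul]
    abel

end

/-- The extended derivations. -/
theorem exists_data [Fintype A] [DecidableEq A] {L : Type} [Field L] [Algebra k0 L] {dg : A → ℕ}
    {B : Set (Bt j0)} [Fintype B] [Fintype {b : Bt j0 // b ∉ B}] (δ : B → Derivation ℤ L L)
    (hδk : ∀ b (r : k0), δ b (algebraMap k0 L r) = 0) (c : Bt j0 → L)
    (hδ : ∀ b b' : B, b = b' ∧ δ b (c b') = 1 ∨ b ≠ b' ∧ δ b (c b') = 0) {c0 : Fin (n + 1)}
    (hSt : ∀ a, ∀ I ∈ St c0 (dg a), ∃ j, P a j = monomial I 1) :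
    ∃ (ρ : A → (Fin (n + 1) →₀ ℕ) → Bt j0 → L) (ε : A → (Fin (n + 1) →₀ ℕ) → L),
      (∀ a I q, ρ a I q = 0 ∨ ρ a I q = 1 ∨ ρ a I q = - c q) ∧
      DualE c0 (NF P j0 c) dg (fun a I => Dr δ (ρ a I)) (fun a I => θr δ c (ρ a I)) ε
        (Qr P L B) := by
  classical
  have hδ' : ∀ b b' : B, δ b (c b') = if b = b' then 1 else 0 := by
    intro b b'
    rcases hδ b b' with ⟨h1, h2⟩ | ⟨h1, h2⟩
    · rw [if_pos h1, h2]
    · rw [if_neg h1, h2]
  obtain ⟨jI, hjI⟩ : ∃ jI : ∀ a, (Fin (n + 1) →₀ ℕ) → J a, ∀ a, ∀ I ∈ St c0 (dg a),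
      P a (jI a I) = monomial I 1 := by
    refine ⟨fun a I => if h : ∃ j, P a j = monomial I 1 then h.choose else j0 a,
      fun a I hI => ?_⟩
    have h := hSt a I hI
    simp only [dif_pos h]
    exact h.choose_spec
  refine ⟨fun a I q => if jI a I = j0 a then (if q.1 = a then - c q else 0) else
    if ∃ h : jI a I ≠ j0 a, q = ⟨a, jI a I, h⟩ then 1 else 0,
    fun a I => if jI a I = j0 a then 1 else 0, fun a I q => ?_, fun a b I hI => ?_⟩
  · dsimp only
    split_ifs
    · exact Or.inr (Or.inr rfl)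
    · exact Or.inl rfl
    · exact Or.inr (Or.inl rfl)
    · exact Or.inl rfl
  rw [cd_Dr δ hδk c hδ']
  congr 1
  have hm : map (algebraMap k0 L) (P a (jI a I)) = monomial I 1 := by
    rw [hjI a I hI, map_monomial, map_one]
  by_cases hj : jI a I = j0 a
  · simp only [if_pos hj, one_smul]
    by_cases hab : a = b
    · subst hab
      rw [if_pos rfl, ← hm, hj]
      have h1 := NF_eq (P := P) c a
      have h2 : (∑ᶠ q : Bt j0, if q.1 = a then
          (if q.1 = a then - c q else 0) • map (algebraMap k0 L) (P q.1 q.2.1) else 0) =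
          - ∑ᶠ q : Bt j0, if q.1 = a then
            c q • map (algebraMap k0 L) (P q.1 q.2.1) else 0 := by
        rw [← finsum_neg_distrib]
        refine finsum_congr fun q => ?_
        split_ifs
        · rw [neg_smul]
        · rw [neg_zero]
      rw [h2, h1]
      abel
    · rw [if_neg hab]
      refine (finsum_congr fun q => ?_).trans finsum_zero
      split_ifs with h1 h2
      · exact absurd (h2.symm.trans h1) hab
      · rw [zero_smul]
      · rfl
  · simp only [if_neg hj, zero_smul, sub_zero]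
    rw [finsum_eq_single _ (⟨a, jI a I, hj⟩ : Bt j0)]
    · have h1 : (∃ (h : jI a I ≠ j0 a),
          (⟨a, jI a I, hj⟩ : Bt j0) = ⟨a, jI a I, h⟩) := Exists.intro hj rfl
      rw [if_pos h1, one_smul]
      by_cases hab : a = b
      · subst hab
        rw [if_pos rfl, if_pos rfl]
        exact hm
      · rw [if_neg hab, if_neg hab]
    · intro q hq
      rw [if_neg (c := ∃ h : jI a I ≠ j0 a, q = ⟨a, jI a I, h⟩) (by
        rintro ⟨h, h'⟩
        exact hq h'), zero_smul, ite_self]

end Pool.Agent.Run7.h621.NG
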