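import Pool.Agent.Run7.h621.NG.Change
import Pool.Agent.Run7.h621.NG.Arith
import Pool.Agent.TH145.GF.Main

/-!
Subvarieties are of general type.
-/

set_option autoImplicit false

open MvPolynomial FF Pool.Agent.W603.LV Pool.Agent.TH145.GH Pool.Agent.W602.GT
open Pool.Agent.TH145.GF Pool.Agent.TH145.MG
open Pool.Agent.TH145.GC (Tan)
open Pool.Agent.TH145.GE (tan_rank)
open Pool.Agent.TH145.GD (St)
open Pool.Agent.Run7.h621.FV (cd coeff_cd)

namespace Pool.Agent.Run7.h621.NG

variable {k0 A : Type} [Field k0] {n : ℕ} {J : A → Type} [∀ a, Fintype (J a)]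
  {P : ∀ a, J a → MvPolynomial (Fin (n + 1)) k0} {j0 : ∀ a, J a}

theorem map_NF {K L : Type} [Field K] [Field L] [Algebra k0 K] [Algebra K L] [Algebra k0 L]
    [IsScalarTower k0 K L] (c : Bt j0 → K) (a : A) :
    map (algebraMap K L) (NF P j0 c a) = NF P j0 (fun b => algebraMap K L (c b)) a := by
  rw [NF, NF, map_sum]
  refine Finset.sum_congr rfl fun j _ => ?_
  rw [map_mul, map_C, map_map, ← IsScalarTower.algebraMap_eq, cj, cj]
  split_ifs
  · rw [map_one]
  · rfl

/-- Subvarieties are of general type, in a chart. -/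
theorem general_chart {K L : Type} [Field K] [Field L] [Algebra k0 K]
    [Algebra K L] [IsAlgClosed K] [CharZero K] [Fintype A] [DecidableEq A] {dg : A → ℕ}
    (hP : ∀ a j, (P a j).IsHomogeneous (dg a))
    {V : Set (MvPolynomial (Fin (n + 1)) k0)} {m s w : ℕ} (hV : DimLE k0 V m) {c0 : Fin (n + 1)}
    (hSt : ∀ a, ∀ I ∈ St c0 (dg a), ∃ j, P a j = monomial I 1) (hw : 0 < w)
    (hnum : 2 * m + s + 2 ≤ ∑ a, (dg a + 1) + w) {c : Bt j0 → K} {B : Set (Bt j0)}
    (hB : Nat.card {b : Bt j0 // b ∉ B} ≤ s)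
    (hind : AlgebraicIndependent k0 fun b : B => c b) (htr : Algebra.trdeg K L = w)
    {x : Fin (n + 1) → L} (hx : x c0 = 1) (hgen : Algebra.IsAlgebraic (coords K x) L)
    (hxV : ∀ f ∈ V, aeval x (map (algebraMap k0 K) f) = 0)
    (hxF : ∀ a, eval x (map (algebraMap K L) (NF P j0 c a)) = 0) : GeneralType K L w := by
  classical
  let _ : Algebra k0 L := ((algebraMap K L).comp (algebraMap k0 K)).toAlgebra
  have hst : IsScalarTower k0 K L := IsScalarTower.of_algebraMap_eq fun _ => rfl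
  have hL : CharZero L := charZero_of_injective_algebraMap (algebraMap K L).injective
  have := Fintype.ofFinite B
  have := Fintype.ofFinite {b : Bt j0 // b ∉ B}
  have hx0 : x ≠ 0 := by
    rintro rfl
    exact zero_ne_one hx
  obtain ⟨l, hl⟩ := exists_coord_basis htr hgen
  obtain ⟨t, ht⟩ : ∃ t : Fin w → L, ∀ i, t i = x (l i) := ⟨_, fun _ => rfl⟩
  have htb : IsTranscendenceBasis K t := by
    have : t = fun i => x (l i) := funext ht
    rw [this]
    exact hl
  -- the vertical derivations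
  obtain ⟨E, hE⟩ : ∃ E : Fin w → Derivation K L L, ∀ i j, E i (t j) = if i = j then 1 else 0 := by
    obtain ⟨E, hE⟩ := exists_dual htb
    refine ⟨E, fun i j => ?_⟩
    have := congrFun (congrFun hE i) j
    rw [Matrix.of_apply, Matrix.one_apply] at this
    rw [this]
  -- the dual derivations
  obtain ⟨δ, hδS, hδ⟩ := exists_dualsG htb (fun b : B => c b) hind
  have hδk : ∀ b (r : k0), δ b (algebraMap k0 L r) = 0 := fun b r => (δ b).map_algebraMap r
  obtain ⟨ρ, ε, hρ, hD⟩ := exists_data (P := P) (dg := dg) (fun b => (δ b).restrictScalars ℤ)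
    hδk (fun b => algebraMap K L (c b)) (fun b b' => by
      by_cases h : b = b'
      · exact Or.inl ⟨h, (hδ b b').trans (if_pos h)⟩
      · exact Or.inr ⟨h, (hδ b b').trans (if_neg h)⟩) hSt
  obtain ⟨D, hDd⟩ : ∃ D : A → (Fin (n + 1) →₀ ℕ) → Derivation ℤ L L, D = fun a I =>
    Dr (fun b => (δ b).restrictScalars ℤ) (ρ a I) := ⟨_, rfl⟩
  obtain ⟨θ, hθd⟩ : ∃ θ : A → (Fin (n + 1) →₀ ℕ) → {b : Bt j0 // b ∉ B} → L, θ = fun a I =>
    θr (fun b => (δ b).restrictScalars ℤ) (fun b => algebraMap K L (c b)) (ρ a I) := ⟨_, rfl⟩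
  rw [← hDd, ← hθd] at hD
  have hDf : ∀ a I f, D a I f = ∑ b : B, ρ a I b * δ b f := fun a I f => by
    rw [hDd]
    exact Dr_apply _ _ _
  have hρK : ∀ a I q, ∃ z : K, ρ a I q = algebraMap K L z := fun a I q => by
    rcases hρ a I q with h | h | h
    · exact ⟨0, by rw [h, map_zero]⟩
    · exact ⟨1, by rw [h, map_one]⟩
    · exact ⟨-c q, by rw [h, map_neg]⟩
  have hDk : ∀ a I (r : k0), D a I (algebraMap k0 L r) = 0 := by
    intro a I r
    rw [hDf]
    exact Finset.sum_eq_zero fun b _ => by rw [hδk, mul_zero]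
  have hDS' : ∀ a I (r : K), ∃ z : K, D a I (algebraMap K L r) = algebraMap K L z := by
    intro a I r
    have h2 : ∀ b, ∃ z : K, δ b (algebraMap K L r) = algebraMap K L z := fun b => hδS b r
    choose z1 hz1 using hρK a I
    choose z2 hz2 using h2
    refine ⟨∑ b : B, z1 b * z2 b, ?_⟩
    rw [hDf, map_sum]
    exact Finset.sum_congr rfl fun b _ => by rw [hz1, hz2, map_mul]
  have hDS : ∀ a I, Sem K (D a I) := fun a I r => hDS' a I r
  have hθK : ∀ a I r, ∃ z : K, θ a I r = algebraMap K L z := by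
    intro a I r
    have h2 : ∀ b, ∃ z : K, δ b (algebraMap K L (c r)) = algebraMap K L z := fun b => hδS b (c r)
    choose z1 hz1 using hρK a I
    choose z2 hz2 using h2
    refine ⟨∑ b : B, z1 b * z2 b - z1 r, ?_⟩
    rw [hθd, map_sub, map_sum, ← hz1 r]
    change ∑ b : B, ρ a I b * δ b (algebraMap K L (c r)) - ρ a I r = _
    congr 1
    exact Finset.sum_congr rfl fun b _ => by rw [hz1, hz2, map_mul]
  simp only [map_NF] at hxF
  have hxV' : ∀ f ∈ V, aeval x f = 0 := by
    intro f hf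
    have h1 := hxV f hf
    rwa [aeval_map_algebraMap] at h1
  have hX : LinearIndependent L (Sum.elim (fun _ : Unit => x)
      (fun ξ j => (E ξ).restrictScalars ℤ (x j))) := by
    rw [Fintype.linearIndependent_iff]
    intro g hg
    have h2 : ∀ q, g (Sum.inl ()) * x q + ∑ i, g (Sum.inr i) * E i (x q) = 0 := by
      intro q
      have h3 := congrFun hg q
      rw [Fintype.sum_sum_type, Pi.add_apply, Finset.sum_apply, Finset.sum_apply] at h3
      simp only [Sum.elim_inl, Sum.elim_inr, Pi.smul_apply, smul_eq_mul,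
        Pi.zero_apply, Finset.univ_unique, Finset.sum_singleton] at h3
      exact h3
    have h3 : g (Sum.inl ()) = 0 := by
      have h4 := h2 c0
      rw [hx, mul_one, Finset.sum_eq_zero fun i _ => by
        rw [(E i).map_one_eq_zero, mul_zero], add_zero] at h4
      exact h4
    rintro (_ | j)
    · exact h3
    · have h4 := h2 (l j)
      rw [h3, zero_mul, zero_add, ← ht, Finset.sum_eq_single j] at h4
      · rwa [hE, if_pos rfl, mul_one] at h4
      · intro i _ hi
        rw [hE, if_neg hi, mul_zero]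
      · intro h; exact absurd (Finset.mem_univ _) h
  obtain ⟨τ, i1, υ1, i2, υ2, i3, tt, u1, u2, e, hsp, hli, hcard⟩ := pick (NF_hom hP _) hD
    (E := fun ξ => (E ξ).restrictScalars ℤ) (fun ξ b => by
      ext u
      rw [coeff_cd, coeff_zero, ← map_NF, coeff_map]
      exact (E ξ).map_algebraMap _) hx hxF hX
    (N := Tan k0 x) (m := m) (tan_rank hx (hV L x hx0 hxV'))
    ⟨1, 0, fun _ => rfl, fun l => by simp⟩
    (fun a I => ⟨0, D a I, hDk a I, fun l => by rw [zero_mul, zero_add]⟩)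
    (fun ξ => ⟨0, (E ξ).restrictScalars ℤ, fun r => by
      change E ξ (algebraMap k0 L r) = 0
      rw [IsScalarTower.algebraMap_apply k0 K L]
      exact (E ξ).map_algebraMap _, fun l => by rw [zero_mul, zero_add]⟩)
  rw [Fintype.card_fin] at hcard
  obtain ⟨u, hu⟩ : ∃ u : υ1 ⊕ υ2 → Fin (n + 1) ⊕ {b : Bt j0 // b ∉ B} → L, u =
    Sum.elim (fun y => Pi.single (Sum.inl (u1 y)) 1) fun y => Pi.single (u2 y) 1 := ⟨_, rfl⟩
  obtain ⟨Δ, hΔ⟩ : ∃ Δ : (Fin w → Derivation K L L) → L, ∀ Dd, Δ Dd =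
    dt e (row c0 dg D θ (fun ξ => (Dd ξ).restrictScalars ℤ) tt
      (fun a => Finsupp.single c0 (dg a)) u x) := ⟨_, fun _ => rfl⟩
  rw [← hu] at hli
  have hΔE : Δ E ≠ 0 := by
    rw [hΔ]
    exact dt_ne_zero e hli
  have hlin : ∀ (B : Matrix (Fin w) (Fin w) L) (D1 D2 : Fin w → Derivation K L L),
      (∀ i f, D1 i f = ∑ j, B i j * D2 j f) → Δ D1 = B.det * Δ D2 := by
    intro B D1 D2 h
    rw [hΔ, hΔ]
    exact dt_change e h (r := fun _ _ _ => 0) (fun a I f => by simp) _ u x
  obtain ⟨cf, hcf⟩ : ∃ cf : ℤ, cf = (∑ a, dg a : ℕ) + (Fintype.card {b : Bt j0 // b ∉ B} : ℤ) -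
    (1 + Fintype.card (Fin w) + 2 * Fintype.card τ + Fintype.card A + Fintype.card υ2 : ℕ) :=
      ⟨_, rfl⟩
  have hc1 : (1 : ℤ) ≤ cf := by
    rw [Finset.sum_add_distrib, Finset.sum_const, Finset.card_univ, smul_eq_mul, mul_one] at hnum
    rw [Nat.card_eq_fintype_card] at hB
    rw [hcf, Fintype.card_fin]
    push_cast
    zify at hnum hcard hB
    linarith
  -- the regularity
  have hreg : ∀ (Q : Place K L), Divisorial w Q → ∀ Dd : Fin w → Derivation K L L,
      (∀ i, DerReg Q (Dd i)) → ∃ h : ℤ, 0 ≤ h ∧ (∀ j, Ge Q (-h) (x j)) ∧ Ge Q h (Δ Dd) := by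
    intro Q hQ Dd hDd
    obtain ⟨B', hB'⟩ : ∃ B' : Matrix (Fin w) (Fin w) L, B' = Matrix.of fun i j => Dd i (t j) :=
      ⟨_, rfl⟩
    have hDE : ∀ i f, Dd i f = ∑ j, B' i j * E j f := fun i f => by
      rw [der_comb htb hE (Dd i) f, hB']
      rfl
    have h1 := hlin B' Dd E hDE
    by_cases hB0 : B'.det = 0
    · obtain ⟨lam, x', hlam, hlamP, hxx, hx', j1, hj1⟩ := exists_scaled Q hx0
      have hord : Q.ord lam ≤ 0 := by
        have h1 := Pool.Agent.W603.PV.pord_le Q (f := x) (j := c0) (by rw [hx]; exact one_ne_zero)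
        rw [hx, Q.ord_one] at h1
        rw [hlamP]
        exact h1
      refine ⟨- Q.ord lam, by omega, fun j => ?_, ?_⟩
      · rw [neg_neg, hxx, Pi.smul_apply, smul_eq_mul]
        have h0 : Ge Q (Q.ord lam) lam := Or.inr le_rfl
        have h1 := h0.mul (hx' j)
        rwa [add_zero] at h1
      · rw [h1, hB0, zero_mul]
        exact Ge.zero
    have hΔD : Δ Dd ≠ 0 := by
      rw [h1]
      exact mul_ne_zero hB0 hΔE
    choose ξ hξ using fun a I => exists_lift hw htr hQ (hDS a I)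
    obtain ⟨D2, hD2⟩ : ∃ D2 : A → (Fin (n + 1) →₀ ℕ) → Derivation ℤ L L, ∀ a I f, D2 a I f =
      D a I f - ξ a I f := ⟨fun a I => D a I - (ξ a I).restrictScalars ℤ, fun a I f => by simp⟩
    have hED : ∀ i f, E i f = ∑ j, B'⁻¹ i j * Dd j f := by
      intro i f
      have h2 : ∀ j, B'⁻¹ i j * Dd j f = ∑ k, B'⁻¹ i j * B' j k * E k f := fun j => by
        rw [hDE, Finset.mul_sum]
        exact Finset.sum_congr rfl fun k _ => by ring
      rw [Finset.sum_congr rfl fun j _ => h2 j, Finset.sum_comm]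
      have h3 : ∀ k, ∑ j, B'⁻¹ i j * B' j k * E k f =
          (1 : Matrix (Fin w) (Fin w) L) i k * E k f := by
        intro k
        rw [← Finset.sum_mul, ← Matrix.nonsing_inv_mul B' (isUnit_iff_ne_zero.2 hB0),
          Matrix.mul_apply]
      rw [Finset.sum_congr rfl fun k _ => h3 k, Finset.sum_eq_single i]
      · rw [Matrix.one_apply_eq, one_mul]
      · intro k _ hk
        rw [Matrix.one_apply_ne (Ne.symm hk), zero_mul]
      · intro h; exact absurd (Finset.mem_univ _) h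
    have hDD2 : ∀ a I f, D a I f = D2 a I f + ∑ j, (∑ k, ξ a I (t k) * B'⁻¹ k j) * Dd j f := by
      intro a I f
      rw [hD2]
      have h2 : ξ a I f = ∑ j, (∑ k, ξ a I (t k) * B'⁻¹ k j) * Dd j f := by
        rw [der_comb htb hE (ξ a I) f]
        simp only [Finset.sum_mul]
        rw [Finset.sum_comm]
        refine Finset.sum_congr rfl fun k _ => ?_
        rw [hED, Finset.mul_sum]
        exact Finset.sum_congr rfl fun j _ => by ring
      rw [← h2]
      ring
    have hΔ2 : Δ Dd = dt e (row c0 dg D2 θ (fun ξ => (Dd ξ).restrictScalars ℤ) tt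
        (fun a => Finsupp.single c0 (dg a)) u x) := by
      have h2 := dt_change (c := c0) (dg := dg) (D1 := D) (D2 := D2) (θ := θ)
        (E1 := fun ξ => (E ξ).restrictScalars ℤ)
        (E2 := fun ξ => (Dd ξ).restrictScalars ℤ) (t := tt) e (B := B'⁻¹) hED hDD2
        (fun a => Finsupp.single c0 (dg a)) u x
      rw [h1, hΔ, h2, ← mul_assoc, ← Matrix.det_mul, Matrix.mul_nonsing_inv _
        (isUnit_iff_ne_zero.2 hB0), Matrix.det_one, one_mul]
    obtain ⟨h, h0, h2, h3⟩ := ord_dt (E := fun ξ => (Dd ξ).restrictScalars ℤ) Q e hx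
      (spans_change hED hDD2 hsp) u1 u2 (e' := 0) (fun f hf a I _ => by
        rw [neg_zero, hD2]
        by_cases hf0 : f = 0
        · rw [hf0, map_zero, map_zero, sub_zero]
          exact Ge.zero
        · exact (hξ a I f hf0).mono (hf.resolve_left hf0)) (fun a I _ r => by
        obtain ⟨z, hz⟩ := hθK a I r
        rw [hz, neg_zero]
        exact Ge.const z) (fun f hf ξ => hDd ξ f hf) (by
        rw [← hu, ← hΔ2]
        exact hΔD)
    rw [← hu, ← hΔ2, mul_zero, sub_zero, ← hcf] at h3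
    refine ⟨h, h0, h2, Or.inr ?_⟩
    have h4 := mul_le_mul_of_nonneg_right hc1 h0
    rw [one_mul] at h4
    exact h4.trans h3
  -- the forms
  obtain ⟨y, hy⟩ : ∃ y : Fin (w + 1) → L, y = Fin.cons 1 t := ⟨_, rfl⟩
  refine ⟨htr, 1, one_pos, fun j Dd => Δ Dd * y j, fun j B Dd => ?_, fun Q hQ j Dd hDd => ?_, E, ?_,
    ?_⟩
  · change Δ _ * y j = B.det ^ 1 * (Δ Dd * y j)
    rw [pow_one, hlin B _ Dd (fun i f => ?_)]
    · ring
    · rw [← Derivation.coeFnAddMonoidHom_apply, map_sum, Finset.sum_apply]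
      rfl
  · obtain ⟨h, h0, h1, h2⟩ := hreg Q hQ Dd hDd
    have h3 : Ge Q (-h) (y j) := by
      rw [hy]
      refine Fin.cases ?_ (fun i => ?_) j
      · rw [Fin.cons_zero]
        exact Ge.one.mono (by omega)
      · rw [Fin.cons_succ, ht]
        exact h1 _
    have h4 := h2.mul h3
    rw [add_neg_cancel] at h4
    exact h4
  · rw [hy]
    change Δ E * (Fin.cons 1 t : Fin (w + 1) → L) 0 ≠ 0
    rw [Fin.cons_zero, mul_one]
    exact hΔE
  · have h1 : (fun i : Fin w => Δ E * y i.succ / (Δ E * y 0)) = t := by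
      funext i
      rw [hy, Fin.cons_succ, Fin.cons_zero, mul_one, mul_div_cancel_left₀ _ hΔE]
    change AlgebraicIndependent K (fun i : Fin w => Δ E * y i.succ / (Δ E * y 0))
    rw [h1]
    exact htb.1

end Pool.Agent.Run7.h621.NG
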