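import Pool.Agent.Run7.h621.NG.Rows

/-!
The change of the derivations.
-/

set_option autoImplicit false

open MvPolynomial
open Pool.Agent.TH145.GD (sM)

namespace Pool.Agent.Run7.h621.NG

variable {L : Type} [Field L] {n : ℕ} {A S X τ υ : Type} [Fintype X]

variable {c : Fin (n + 1)} {dg : A → ℕ} {D1 D2 : A → (Fin (n + 1) →₀ ℕ) → Derivation ℤ L L}
  {θ : A → (Fin (n + 1) →₀ ℕ) → S → L} {E1 E2 : X → Derivation ℤ L L}
  {t : τ → A × Fin (n + 1) × ℕ}

/-- The row of a vertical derivation. -/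
noncomputable def Er (S : Type) (δ : Derivation ℤ L L) (x : Fin (n + 1) → L) :
    Fin (n + 1) ⊕ S → L := Sum.elim (fun j => δ (x j)) 0

theorem Er_comb {B : X → L} {δ : Derivation ℤ L L} (h : ∀ f, δ f = ∑ j, B j * E2 j f)
    (x : Fin (n + 1) → L) : Er S δ x = ∑ j, B j • Er S (E2 j) x := by
  funext q
  rw [Finset.sum_apply]
  rcases q with j | r
  · exact h (x j)
  · symm
    exact Finset.sum_eq_zero fun j _ => mul_zero (B j)

theorem R_diff {r : A → (Fin (n + 1) →₀ ℕ) → X → L}
    (hD : ∀ a I f, D1 a I f = D2 a I f + ∑ j, r a I j * E2 j f) (x : Fin (n + 1) → L) (a : A)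
    (I : Fin (n + 1) →₀ ℕ) :
    R D1 θ x a I = R D2 θ x a I + ∑ j, r a I j • Er S (E2 j) x := by
  funext q
  rw [Pi.add_apply, Finset.sum_apply]
  rcases q with j | s
  · exact hD a I (x j)
  · have h1 : ∑ j, (r a I j • Er S (E2 j) x) (Sum.inr s) = 0 :=
      Finset.sum_eq_zero fun j _ => mul_zero (r a I j)
    rw [h1, add_zero]
    rfl

theorem T_diff {r : A → (Fin (n + 1) →₀ ℕ) → X → L}
    (hD : ∀ a I f, D1 a I f = D2 a I f + ∑ j, r a I j * E2 j f) (x : Fin (n + 1) → L)
    (p : A × Fin (n + 1) × ℕ) :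
    ∃ z : X → L, T c dg D1 θ x p = T c dg D2 θ x p + ∑ j, z j • Er S (E2 j) x := by
  by_cases hp : p.2.2 < dg p.1
  · refine ⟨fun j => x c * r p.1 (sM c (dg p.1) p.2.1 (p.2.2 + 1)) j -
      x p.2.1 * r p.1 (sM c (dg p.1) p.2.1 p.2.2) j, ?_⟩
    simp only [T, if_pos hp]
    rw [R_diff hD, R_diff hD, smul_add, smul_add, Finset.smul_sum, Finset.smul_sum]
    simp only [sub_smul, smul_smul, Finset.sum_sub_distrib]
    abel
  · refine ⟨0, ?_⟩
    simp [T, if_neg hp]

/-- The change of the derivations, for the spans. -/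
theorem spans_change {B : X → X → L} (hE : ∀ i f, E1 i f = ∑ j, B i j * E2 j f)
    {r : A → (Fin (n + 1) →₀ ℕ) → X → L}
    (hD : ∀ a I f, D1 a I f = D2 a I f + ∑ j, r a I j * E2 j f)
    {x : Fin (n + 1) → L} (h : Spans c dg D1 θ E1 t x) : Spans c dg D2 θ E2 t x := by
  have hX : ∀ z : X → L, ∑ j, z j • Er S (E2 j) x ∈
      Submodule.span L (Set.range (brow c dg D2 θ E2 t x)) :=
    fun z => Submodule.sum_mem _ fun j _ => Submodule.smul_mem _ _
      (Submodule.subset_span ⟨Sum.inr (Sum.inl j), rfl⟩)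
  have h1 : Submodule.span L (Set.range (brow c dg D1 θ E1 t x)) ≤
      Submodule.span L (Set.range (brow c dg D2 θ E2 t x)) := by
    rw [Submodule.span_le]
    rintro _ ⟨(p | ξ | y), rfl⟩
    · exact Submodule.subset_span ⟨Sum.inl p, rfl⟩
    · change Er S (E1 ξ) x ∈ Submodule.span L (Set.range (brow c dg D2 θ E2 t x))
      rw [Er_comb (hE ξ) x]
      exact hX _
    · change T c dg D1 θ x (t y) ∈ Submodule.span L (Set.range (brow c dg D2 θ E2 t x))
      obtain ⟨z, hz⟩ := T_diff (c := c) (dg := dg) (θ := θ) hD x (t y)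
      rw [hz]
      exact add_mem (Submodule.subset_span ⟨Sum.inr (Sum.inr y), rfl⟩) (hX _)
  intro p
  have h2 := h1 (h p)
  obtain ⟨z, hz⟩ := T_diff (c := c) (dg := dg) (θ := θ) hD x p
  rw [hz] at h2
  have h3 := sub_mem h2 (hX z)
  rwa [add_sub_cancel_right] at h3

/-- The change of the derivations, for the determinants. -/
theorem dt_change [Fintype S] [DecidableEq S] [Fintype A] [Fintype τ] [Fintype υ]
    [DecidableEq X]
    (e : Fin (n + 1) ⊕ S ≃ (Unit ⊕ (X ⊕ τ)) ⊕ (A ⊕ υ))
    {B : Matrix X X L} (hE : ∀ i f, E1 i f = ∑ j, B i j * E2 j f)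
    {r : A → (Fin (n + 1) →₀ ℕ) → X → L}
    (hD : ∀ a I f, D1 a I f = D2 a I f + ∑ j, r a I j * E2 j f)
    (I : A → Fin (n + 1) →₀ ℕ) (u : υ → Fin (n + 1) ⊕ S → L) (x : Fin (n + 1) → L) :
    dt e (row c dg D1 θ E1 t I u x) = B.det * dt e (row c dg D2 θ E2 t I u x) := by
  classical
  choose z hz using fun y => T_diff (c := c) (dg := dg) (θ := θ) hD x (t y)
  rw [dt_tri e (v' := row c dg D2 θ E2 t I u x) (Matrix.fromBlocks 1 0 0
    (Matrix.fromBlocks B 0 (Matrix.of fun y j => z y j) 1)) 1]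
  · rw [Matrix.det_fromBlocks_zero₁₂, Matrix.det_fromBlocks_zero₁₂, Matrix.det_one, Matrix.det_one,
      Matrix.det_one, one_mul, mul_one, mul_one]
  · rintro (p | ξ | y)
    · rw [Fintype.sum_sum_type]
      simp only [Matrix.fromBlocks_apply₁₁, Matrix.fromBlocks_apply₁₂, Matrix.zero_apply, zero_smul,
        Finset.sum_const_zero, add_zero]
      rw [Finset.sum_eq_single p]
      · rw [Matrix.one_apply_eq, one_smul]
        rfl
      · intro q _ hq
        rw [Matrix.one_apply_ne (Ne.symm hq), zero_smul]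
      · intro h; exact absurd (Finset.mem_univ _) h
    · rw [Fintype.sum_sum_type, Fintype.sum_sum_type]
      simp only [Matrix.fromBlocks_apply₂₁, Matrix.fromBlocks_apply₂₂, Matrix.fromBlocks_apply₁₁,
        Matrix.fromBlocks_apply₁₂, Matrix.zero_apply, zero_smul,
        Finset.sum_const_zero, add_zero, zero_add]
      exact Er_comb (hE ξ) x
    · rw [Fintype.sum_sum_type, Fintype.sum_sum_type]
      simp only [Matrix.fromBlocks_apply₂₁, Matrix.fromBlocks_apply₂₂, Matrix.zero_apply, zero_smul,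
        Finset.sum_const_zero, zero_add, Matrix.of_apply]
      rw [Finset.sum_eq_single (a := y) (s := (Finset.univ : Finset τ))]
      · rw [Matrix.one_apply_eq, one_smul]
        exact (hz y).trans (add_comm _ _)
      · intro q _ hq
        rw [Matrix.one_apply_ne (Ne.symm hq), zero_smul]
      · intro h; exact absurd (Finset.mem_univ _) h
  · have hX : ∀ z : X → L, ∑ j, z j • Er S (E2 j) x ∈
        Submodule.span L (Set.range fun j => row c dg D2 θ E2 t I u x (Sum.inl j)) :=
      fun z => Submodule.sum_mem _ fun j _ => Submodule.smul_mem _ _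
        (Submodule.subset_span ⟨Sum.inr (Sum.inl j), rfl⟩)
    intro i
    have h1 : ∑ j, (1 : Matrix (A ⊕ υ) _ L) i j •
        row c dg D2 θ E2 t I u x (Sum.inr j) = row c dg D2 θ E2 t I u x (Sum.inr i) := by
      rw [Finset.sum_eq_single i]
      · rw [Matrix.one_apply_eq, one_smul]
      · intro q _ hq
        rw [Matrix.one_apply_ne (Ne.symm hq), zero_smul]
      · intro h; exact absurd (Finset.mem_univ _) h
    rw [h1]
    rcases i with a | y
    · change R D1 θ x a (I a) - R D2 θ x a (I a) ∈ _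
      rw [R_diff hD x a, add_sub_cancel_left]
      exact hX _
    · change u y - u y ∈ _
      rw [sub_self]
      exact zero_mem _

end Pool.Agent.Run7.h621.NG
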