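import Mathlib

/-!
Determinants of families of vectors.
-/

set_option autoImplicit false

namespace Pool.Agent.Run7.h621.NG

variable {κ ι L : Type} [Fintype κ] [DecidableEq κ] [Field L]

/-- The determinant of a family of vectors. -/
noncomputable def dt (e : κ ≃ ι) (v : ι → κ → L) : L :=
  (Matrix.of fun p q : κ => v (e p) q).det

theorem dt_lin [Fintype ι] [DecidableEq ι] (e : κ ≃ ι) {v v' : ι → κ → L}
    (B : Matrix ι ι L) (h : ∀ i, v' i = ∑ j, B i j • v j) : dt e v' = B.det * dt e v := by
  have h1 : (Matrix.of fun p q : κ => v' (e p) q) =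
      B.submatrix e e * Matrix.of fun p q : κ => v (e p) q := by
    ext p q
    rw [Matrix.mul_apply, Matrix.of_apply, h, ← Equiv.sum_comp e, Finset.sum_apply]
    rfl
  unfold dt
  rw [h1, Matrix.det_mul, Matrix.det_submatrix_equiv_self]

theorem dt_cols (e : κ ≃ ι) (v : ι → κ → L) (c : κ → L) :
    dt e (fun i q => c q * v i q) = (∏ q, c q) * dt e v :=
  Matrix.det_mul_row c (Matrix.of fun p q : κ => v (e p) q)

theorem dt_rows [Fintype ι] (e : κ ≃ ι) (v : ι → κ → L) (c : ι → L) :
    dt e (fun i => c i • v i) = (∏ i, c i) * dt e v := by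
  rw [← Equiv.prod_comp e]
  exact Matrix.det_mul_column (fun p => c (e p)) (Matrix.of fun p q : κ => v (e p) q)

/-- A block triangular change of the family. -/
theorem dt_tri {α β : Type} [Fintype α] [Fintype β] [DecidableEq α] [DecidableEq β]
    (e : κ ≃ α ⊕ β) {v v' : α ⊕ β → κ → L} (K : Matrix α α L) (B : Matrix β β L)
    (h1 : ∀ i, v (Sum.inl i) = ∑ j, K i j • v' (Sum.inl j))
    (h2 : ∀ i, v (Sum.inr i) - ∑ j, B i j • v' (Sum.inr j) ∈
      Submodule.span L (Set.range fun j : α => v' (Sum.inl j))) :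
    dt e v = K.det * B.det * dt e v' := by
  have h3 : ∀ i, ∃ r : α → L, ∑ j, r j • v' (Sum.inl j) =
      v (Sum.inr i) - ∑ j, B i j • v' (Sum.inr j) := fun i => by
    have := h2 i
    rwa [Submodule.mem_span_range_iff_exists_fun] at this
  choose r hr using h3
  have h4 := dt_lin e (v := v') (v' := v) (Matrix.fromBlocks K 0 (Matrix.of r) B) (by
    rintro (i | i)
    · rw [Fintype.sum_sum_type]
      simp only [Matrix.fromBlocks_apply₁₁, Matrix.fromBlocks_apply₁₂, Matrix.zero_apply, zero_smul,
        Finset.sum_const_zero, add_zero]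
      exact h1 i
    · rw [Fintype.sum_sum_type]
      simp only [Matrix.fromBlocks_apply₂₁, Matrix.fromBlocks_apply₂₂, Matrix.of_apply]
      rw [hr i, sub_add_cancel])
  rw [h4, Matrix.det_fromBlocks_zero₁₂]

/-- A change of the family: diagonal, modulo the first part. -/
theorem dt_diag {α β : Type} [Fintype α] [Fintype β] [DecidableEq α] [DecidableEq β]
    (e : κ ≃ α ⊕ β) {v v' : α ⊕ β → κ → L} (c : β → L)
    (h1 : ∀ i, v (Sum.inl i) = v' (Sum.inl i))
    (h2 : ∀ i, v (Sum.inr i) - c i • v' (Sum.inr i) ∈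
      Submodule.span L (Set.range fun j : α => v' (Sum.inl j))) :
    dt e v = (∏ i, c i) * dt e v' := by
  rw [dt_tri e (v := v) (v' := v') 1 (Matrix.diagonal c), Matrix.det_one, one_mul,
    Matrix.det_diagonal]
  · intro i
    rw [Finset.sum_eq_single i, Matrix.one_apply_eq, one_smul, h1]
    · intro j _ hj
      rw [Matrix.one_apply_ne (Ne.symm hj), zero_smul]
    · intro h; exact absurd (Finset.mem_univ _) h
  · intro i
    rw [Finset.sum_eq_single i, Matrix.diagonal_apply_eq]
    · exact h2 i
    · intro j _ hj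
      rw [Matrix.diagonal_apply_ne _ (Ne.symm hj), zero_smul]
    · intro h; exact absurd (Finset.mem_univ _) h

theorem dt_ne_zero (e : κ ≃ ι) {v : ι → κ → L} (h : LinearIndependent L v) :
    dt e v ≠ 0 := by
  have h2 : IsUnit (Matrix.of fun p q : κ => v (e p) q) := by
    rw [← Matrix.linearIndependent_rows_iff_isUnit]
    exact h.comp e e.injective
  exact (Matrix.isUnit_iff_isUnit_det _).1 h2 |>.ne_zero

end Pool.Agent.Run7.h621.NG
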