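import Pool.Agent.Run7.h621.NG.Det
import Pool.Agent.Run7.h621.FV.Chain
import Pool.Agent.TH145.GD.Vec

/-!
The rows: derivatives of the point, extended by the components in the directions of the
coefficients that are not generic.
-/

set_option autoImplicit false

open MvPolynomial Pool.Agent.TH145.GH
open Pool.Agent.TH145.GC (dF_self dF_sub)
open Pool.Agent.TH145.GD (St sM sM_zero sM_top sM_mem mon_step mon_sM single_mem deg_St)
open Pool.Agent.Run7.h621.FV (cd coeff_cd)

namespace Pool.Agent.Run7.h621.NG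

theorem dt_const {κ ι L : Type} [Fintype κ] [DecidableEq κ] [Field L] [Fintype ι]
    (e : κ ≃ ι) {v v' : ι → κ → L} (c s : ι → L) (i0 : ι) (h0 : s i0 = 0) (hc : c i0 ≠ 0)
    (h : ∀ i, v i = c i • v' i + s i • v' i0) : dt e v = (∏ i, c i) * dt e v' := by
  rw [← dt_rows]
  refine Matrix.det_eq_of_forall_row_eq_smul_add_const (fun p => s (e p) * (c i0)⁻¹) (e.symm i0)
    (by rw [Equiv.apply_symm_apply, h0, zero_mul]) fun p q => ?_
  simp only [Matrix.of_apply, h, Pi.add_apply, Pi.smul_apply, smul_eq_mul, Equiv.apply_symm_apply]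
  rw [mul_assoc, inv_mul_cancel_left₀ hc]

variable {L : Type} [Field L] {n : ℕ} {A S X τ υ υ1 υ2 : Type}

/-- The row of a derivation. -/
noncomputable def R (D : A → (Fin (n + 1) →₀ ℕ) → Derivation ℤ L L)
    (θ : A → (Fin (n + 1) →₀ ℕ) → S → L) (x : Fin (n + 1) → L) (a : A)
    (I : Fin (n + 1) →₀ ℕ) : Fin (n + 1) ⊕ S → L :=
  Sum.elim (fun j => D a I (x j)) (θ a I)

/-- The tangent vectors. -/
noncomputable def T (c : Fin (n + 1)) (dg : A → ℕ)
    (D : A → (Fin (n + 1) →₀ ℕ) → Derivation ℤ L L)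
    (θ : A → (Fin (n + 1) →₀ ℕ) → S → L) (x : Fin (n + 1) → L) (p : A × Fin (n + 1) × ℕ) :
    Fin (n + 1) ⊕ S → L :=
  if p.2.2 < dg p.1 then
    x c • R D θ x p.1 (sM c (dg p.1) p.2.1 (p.2.2 + 1)) -
      x p.2.1 • R D θ x p.1 (sM c (dg p.1) p.2.1 p.2.2) else 0

/-- The base rows. -/
noncomputable def brow (c : Fin (n + 1)) (dg : A → ℕ)
    (D : A → (Fin (n + 1) →₀ ℕ) → Derivation ℤ L L)
    (θ : A → (Fin (n + 1) →₀ ℕ) → S → L) (E : X → Derivation ℤ L L)
    (t : τ → A × Fin (n + 1) × ℕ) (x : Fin (n + 1) → L) :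
    Unit ⊕ (X ⊕ τ) → Fin (n + 1) ⊕ S → L
  | Sum.inl _ => Sum.elim x 0
  | Sum.inr (Sum.inl ξ) => Sum.elim (fun j => E ξ (x j)) 0
  | Sum.inr (Sum.inr y) => T c dg D θ x (t y)

/-- The rows. -/
noncomputable def row (c : Fin (n + 1)) (dg : A → ℕ)
    (D : A → (Fin (n + 1) →₀ ℕ) → Derivation ℤ L L)
    (θ : A → (Fin (n + 1) →₀ ℕ) → S → L) (E : X → Derivation ℤ L L)
    (t : τ → A × Fin (n + 1) × ℕ) (I : A → Fin (n + 1) →₀ ℕ)
    (u : υ → Fin (n + 1) ⊕ S → L) (x : Fin (n + 1) → L) :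
    (Unit ⊕ (X ⊕ τ)) ⊕ (A ⊕ υ) → Fin (n + 1) ⊕ S → L
  | Sum.inl i => brow c dg D θ E t x i
  | Sum.inr (Sum.inl a) => R D θ x a (I a)
  | Sum.inr (Sum.inr y) => u y

section mod

variable {c : Fin (n + 1)} {dg : A → ℕ} {D : A → (Fin (n + 1) →₀ ℕ) → Derivation ℤ L L}
  {θ : A → (Fin (n + 1) →₀ ℕ) → S → L}

/-- The rows, modulo the tangent vectors. -/
theorem R_mod (x : Fin (n + 1) → L) (hc : x c ≠ 0) (a : A) {J : Fin (n + 1) →₀ ℕ}
    (hJ : J ∈ St c (dg a)) :
    R D θ x a J - (mon x J / x c ^ dg a) • R D θ x a (Finsupp.single c (dg a)) ∈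
      Submodule.span L (Set.range (T c dg D θ x)) := by
  obtain ⟨W, hW⟩ : ∃ W, W = Submodule.span L (Set.range (T c dg D θ x)) := ⟨_, rfl⟩
  have hgW : ∀ o, T c dg D θ x o ∈ W := fun o => hW ▸ Submodule.subset_span ⟨o, rfl⟩
  obtain ⟨i, j, hj, rfl⟩ := hJ
  rw [← hW]
  induction j with
  | zero =>
    rw [sM_zero, mon_single, div_self (pow_ne_zero _ hc), one_smul, sub_self]
    exact zero_mem _
  | succ j ih =>
    have h1 := ih (by omega)
    have h2 := hgW (a, i, j)
    simp only [T] at h2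
    rw [if_pos (by omega)] at h2
    have h3 := mon_step x c i (d := dg a) (j := j) (by omega)
    have h4 : R D θ x a (sM c (dg a) i (j + 1)) - (mon x (sM c (dg a) i (j + 1)) / x c ^ dg a) •
        R D θ x a (Finsupp.single c (dg a)) =
        (x c)⁻¹ • (x c • R D θ x a (sM c (dg a) i (j + 1)) - x i • R D θ x a (sM c (dg a) i j)) +
        (x i / x c) • (R D θ x a (sM c (dg a) i j) - (mon x (sM c (dg a) i j) / x c ^ dg a) •
          R D θ x a (Finsupp.single c (dg a))) := by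
      have h5 : mon x (sM c (dg a) i (j + 1)) = x i * mon x (sM c (dg a) i j) / x c := by
        rw [← h3]
        field_simp
      rw [h5]
      funext l
      simp only [Pi.add_apply, Pi.sub_apply, Pi.smul_apply, smul_eq_mul]
      field_simp
      ring
    rw [h4]
    exact add_mem (Submodule.smul_mem _ _ h2) (Submodule.smul_mem _ _ h1)

end mod

/-- The scaling of the columns. -/
def cS (n : ℕ) (S : Type) (lam : L) : Fin (n + 1) ⊕ S → L := Sum.elim (fun _ => 1) fun _ => lam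

section scale

variable {c : Fin (n + 1)} {dg : A → ℕ} {D : A → (Fin (n + 1) →₀ ℕ) → Derivation ℤ L L}
  {θ : A → (Fin (n + 1) →₀ ℕ) → S → L}

theorem R_scale (lam : L) (x : Fin (n + 1) → L) (a : A) (I : Fin (n + 1) →₀ ℕ) :
    (fun q => cS n S lam q * R D θ (lam • x) a I q) =
      lam • R D θ x a I + D a I lam • Sum.elim x 0 := by
  funext q
  rcases q with j | r
  · simp only [cS, R, Sum.elim_inl, Pi.add_apply, Pi.smul_apply, smul_eq_mul, one_mul]
    rw [(D a I).leibniz]
    simp only [smul_eq_mul]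
    ring
  · simp only [cS, R, Sum.elim_inr, Pi.add_apply, Pi.smul_apply, smul_eq_mul, Pi.zero_apply,
      mul_zero, add_zero]

theorem T_scale (lam : L) (x : Fin (n + 1) → L) (p : A × Fin (n + 1) × ℕ) :
    ∃ s : L, (fun q => cS n S lam q * T c dg D θ (lam • x) p q) =
      lam ^ 2 • T c dg D θ x p + s • Sum.elim x 0 := by
  by_cases hp : p.2.2 < dg p.1
  · refine ⟨lam * x c * D p.1 (sM c (dg p.1) p.2.1 (p.2.2 + 1)) lam -
      lam * x p.2.1 * D p.1 (sM c (dg p.1) p.2.1 p.2.2) lam, ?_⟩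
    have h1 := R_scale (D := D) (θ := θ) lam x p.1 (sM c (dg p.1) p.2.1 (p.2.2 + 1))
    have h2 := R_scale (D := D) (θ := θ) lam x p.1 (sM c (dg p.1) p.2.1 p.2.2)
    funext q
    have h3 := congrFun h1 q
    have h4 := congrFun h2 q
    simp only [T, if_pos hp, Pi.add_apply, Pi.sub_apply, Pi.smul_apply, smul_eq_mul] at h3 h4 ⊢
    linear_combination lam * x c * h3 - lam * x p.2.1 * h4
  · refine ⟨0, ?_⟩
    funext q
    simp [T, if_neg hp]

theorem E_scale (δ : Derivation ℤ L L) (lam : L) (x : Fin (n + 1) → L) :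
    (fun q => cS n S lam q * (Sum.elim (fun j => δ ((lam • x) j)) 0 : Fin (n + 1) ⊕ S → L) q) =
      lam • (Sum.elim (fun j => δ (x j)) 0 : Fin (n + 1) ⊕ S → L) + δ lam • Sum.elim x 0 := by
  funext q
  rcases q with j | r
  · simp only [cS, Sum.elim_inl, Pi.add_apply, Pi.smul_apply, smul_eq_mul, one_mul]
    rw [δ.leibniz]
    simp only [smul_eq_mul]
    ring
  · simp only [cS, Sum.elim_inr, Pi.add_apply, Pi.smul_apply, smul_eq_mul, Pi.zero_apply,
      mul_zero, add_zero]

end scale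

/-- The tangent vectors are spanned by the base rows. -/
def Spans (c : Fin (n + 1)) (dg : A → ℕ)
    (D : A → (Fin (n + 1) →₀ ℕ) → Derivation ℤ L L)
    (θ : A → (Fin (n + 1) →₀ ℕ) → S → L) (E : X → Derivation ℤ L L)
    (t : τ → A × Fin (n + 1) × ℕ) (x : Fin (n + 1) → L) : Prop :=
  ∀ p, T c dg D θ x p ∈ Submodule.span L (Set.range (brow c dg D θ E t x))

/-- The rows at the scaled point. -/
noncomputable def sU (lam : L) (u : υ1 ⊕ υ2 → Fin (n + 1) ⊕ S → L) :
    υ1 ⊕ υ2 → Fin (n + 1) ⊕ S → L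
  | Sum.inl y => fun q => cS n S lam q * u (Sum.inl y) q
  | Sum.inr y => fun q => lam⁻¹ * (cS n S lam q * u (Sum.inr y) q)

/-- The change of the chart. -/
theorem dt_chart [Fintype S] [DecidableEq S] [Fintype X] [Fintype τ] [Fintype A] [Fintype υ1]
    [Fintype υ2] {c : Fin (n + 1)} {dg : A → ℕ}
    {D : A → (Fin (n + 1) →₀ ℕ) → Derivation ℤ L L}
    {θ : A → (Fin (n + 1) →₀ ℕ) → S → L} {E : X → Derivation ℤ L L}
    {t : τ → A × Fin (n + 1) × ℕ}
    (e : Fin (n + 1) ⊕ S ≃ (Unit ⊕ (X ⊕ τ)) ⊕ (A ⊕ (υ1 ⊕ υ2))) {lam : L} (hl : lam ≠ 0)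
    {x x' : Fin (n + 1) → L} (hx : x = lam • x') (hc : x c ≠ 0) {j1 : Fin (n + 1)}
    (hj : x' j1 = 1) (hsp : Spans c dg D θ E t x) (u : υ1 ⊕ υ2 → Fin (n + 1) ⊕ S → L) :
    lam ^ (Fintype.card S + ∑ a, dg a) *
      dt e (row c dg D θ E t (fun a => Finsupp.single c (dg a)) u x) =
      x c ^ (∑ a, dg a) * (lam ^ (1 + Fintype.card X + 2 * Fintype.card τ + Fintype.card A +
        Fintype.card υ2) *
        dt e (row c dg D θ E t (fun a => Finsupp.single j1 (dg a)) (sU lam u) x')) := by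
  classical
  -- the change of the exponents
  have h1 : dt e (row c dg D θ E t (fun a => Finsupp.single c (dg a)) u x) =
      (∏ i : A ⊕ (υ1 ⊕ υ2), Sum.elim (fun a => (x c / lam) ^ dg a) (fun _ => 1) i) *
        dt e (row c dg D θ E t (fun a => Finsupp.single j1 (dg a)) u x) := by
    refine dt_diag e _ (fun i => rfl) fun i => ?_
    rcases i with a | y
    · have h2 := R_mod (D := D) (θ := θ) x hc a (single_mem (c := c) (d := dg a) j1)
      have h3 : Submodule.span L (Set.range (T c dg D θ x)) ≤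
          Submodule.span L (Set.range (brow c dg D θ E t x)) := by
        rw [Submodule.span_le]
        rintro _ ⟨p, rfl⟩
        exact hsp p
      have hxj : x j1 = lam := by rw [hx, Pi.smul_apply, hj, smul_eq_mul, mul_one]
      rw [mon_single, hxj] at h2
      have h4 : R D θ x a (Finsupp.single c (dg a)) -
          (x c / lam) ^ dg a • R D θ x a (Finsupp.single j1 (dg a)) =
          -((x c / lam) ^ dg a) • (R D θ x a (Finsupp.single j1 (dg a)) -
            (lam ^ dg a / x c ^ dg a) • R D θ x a (Finsupp.single c (dg a))) := by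
        have h5 : (x c / lam) ^ dg a * (lam ^ dg a / x c ^ dg a) = 1 := by
          rw [div_pow]
          field_simp
        rw [smul_sub, smul_smul, neg_mul, h5, neg_smul, neg_smul, one_smul]
        abel
      change R D θ x a (Finsupp.single c (dg a)) -
        (x c / lam) ^ dg a • R D θ x a (Finsupp.single j1 (dg a)) ∈
          Submodule.span L (Set.range (brow c dg D θ E t x))
      rw [h4]
      exact Submodule.smul_mem _ _ (h3 h2)
    · change u y - (1 : L) • u y ∈ _
      rw [one_smul, sub_self]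
      exact zero_mem _
  have h2 : (∏ i : A ⊕ (υ1 ⊕ υ2), Sum.elim (fun a => (x c / lam) ^ dg a) (fun _ => 1) i) =
      (x c / lam) ^ (∑ a, dg a) := by
    rw [Fintype.prod_sum_type]
    simp only [Sum.elim_inl, Sum.elim_inr, Finset.prod_const_one, mul_one]
    rw [Finset.prod_pow_eq_pow_sum]
  -- the scaling
  obtain ⟨cf, hcf⟩ : ∃ cf : (Unit ⊕ (X ⊕ τ)) ⊕ (A ⊕ (υ1 ⊕ υ2)) → L, cf = fun i => match i with
    | Sum.inl (Sum.inl _) => lam
    | Sum.inl (Sum.inr (Sum.inl _)) => lam
    | Sum.inl (Sum.inr (Sum.inr _)) => lam ^ 2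
    | Sum.inr (Sum.inl _) => lam
    | Sum.inr (Sum.inr (Sum.inl _)) => 1
    | Sum.inr (Sum.inr (Sum.inr _)) => lam := ⟨_, rfl⟩
  choose sT hsT using fun p => T_scale (c := c) (dg := dg) (D := D) (θ := θ) lam x' p
  have h3 : dt e (fun i q => cS n S lam q *
      row c dg D θ E t (fun a => Finsupp.single j1 (dg a)) u x i q) =
      (∏ i, cf i) * dt e (row c dg D θ E t (fun a => Finsupp.single j1 (dg a)) (sU lam u) x') := by
    refine dt_const e cf (fun i => match i with
      | Sum.inl (Sum.inl _) => 0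
      | Sum.inl (Sum.inr (Sum.inl ξ)) => E ξ lam
      | Sum.inl (Sum.inr (Sum.inr y)) => sT (t y)
      | Sum.inr (Sum.inl a) => D a (Finsupp.single j1 (dg a)) lam
      | Sum.inr (Sum.inr _) => 0) (Sum.inl (Sum.inl ())) rfl (by rw [hcf]; exact hl) fun i => ?_
    rw [hx, hcf]
    rcases i with (_ | ξ | y) | (a | y | y)
    · funext q
      rcases q with j | r
      · simp [row, brow, cS]
      · simp [row, brow, cS]
    · exact E_scale (E ξ) lam x'
    · exact hsT (t y)
    · exact R_scale lam x' a _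
    · funext q
      simp [row, sU]
    · funext q
      simp only [row, sU, Pi.add_apply, Pi.smul_apply, smul_eq_mul, zero_mul, add_zero]
      rw [mul_inv_cancel_left₀ hl]
  rw [dt_cols] at h3
  have h4 : ∏ q, cS n S lam q = lam ^ Fintype.card S := by
    rw [Fintype.prod_sum_type]
    simp [cS]
  have h5 : ∏ i, cf i = lam ^ (1 + Fintype.card X + 2 * Fintype.card τ + Fintype.card A +
        Fintype.card υ2) := by
    rw [hcf, Fintype.prod_sum_type, Fintype.prod_sum_type, Fintype.prod_sum_type,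
      Fintype.prod_sum_type, Fintype.prod_sum_type]
    simp only [Finset.prod_const, Finset.card_univ, Fintype.card_unit, pow_one, one_pow, one_mul]
    rw [← pow_mul]
    ring
  rw [h4, h5] at h3
  rw [h1, h2, div_pow, pow_add]
  have h6 : lam ^ (∑ a, dg a) ≠ 0 := pow_ne_zero _ hl
  field_simp
  exact h3

end Pool.Agent.Run7.h621.NG
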